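import Mathlib.Algebra.AffineMonoid.Basic
import Mathlib.Algebra.AffineMonoid.UniqueSums
import Mathlib.LinearAlgebra.Matrix.Nondegenerate
import Mathlib.Data.Int.Star
import Mathlib.Algebra.Order.Ring.Star
import Mathlib.Algebra.MvPolynomial.Monad
import Mathlib.RingTheory.PicardGroup
import Mathlib.RingTheory.AlgebraicIndependent.Defs
import Mathlib.Analysis.SpecificLimits.Basic
import Mathlib.Analysis.RCLike.Basic
import Mathlib.Algebra.Order.Star.Real
import Mathlib.RingTheory.PowerSeries.Inverse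
import Mathlib.NumberTheory.Real.Irrational
import Mathlib.RingTheory.SimpleRing.Principal
import Mathlib.Order.CompletePartialOrder
import Mathlib.RingTheory.HahnSeries.Summable
import Mathlib.RingTheory.Henselian
import Mathlib.RingTheory.MvPolynomial.IrreducibleQuadratic
import Mathlib.RingTheory.RegularLocalRing.Defs
import Mathlib.Tactic.Polynomial.Basic

-- ======== part 0: formerly Pool.Agent.MP_d0dfcd_ag.h33.Hahn
section MrgPart0

/-! Laurent series in `t` with coefficients Laurent polynomials in `x`; shears. -/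

namespace Pool.Agent.MP_d0dfcd_ag.H33

open LaurentPolynomial

/-- Laurent series in `t`. -/
abbrev HS (R : Type*) [Zero R] := HahnSeries ℤ R

/-- Coefficientwise application of a ring homomorphism. -/
noncomputable def mapRH {R S : Type*} [CommRing R] [CommRing S] (f : R →+* S) : HS R →+* HS S where
  toFun x := x.map f
  map_one' := HahnSeries.map_one (Γ := ℤ) f.toMonoidWithZeroHom
  map_mul' _ _ := HahnSeries.map_mul (Γ := ℤ) f.toNonUnitalRingHom
  map_zero' := by ext; simp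
  map_add' x y := by ext; simp

@[simp] theorem coeff_mapRH {R S : Type*} [CommRing R] [CommRing S] (f : R →+* S) (x : HS R)
    (e : ℤ) : (mapRH f x).coeff e = f (x.coeff e) := rfl

theorem fin_supp {R S : Type*} [Zero R] [Zero S] (x : HS R) (y : HS S) (e : ℤ) :
    {i | x.coeff i ≠ 0 ∧ y.coeff (e - i) ≠ 0}.Finite := by
  refine (Set.finite_Icc x.order (e - y.order)).subset ?_
  rintro i ⟨h1, h2⟩
  have a1 := HahnSeries.order_le_of_coeff_ne_zero h1
  have a2 := HahnSeries.order_le_of_coeff_ne_zero h2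
  exact ⟨a1, by omega⟩

theorem coeff_mul_finsum {R : Type*} [CommRing R] (x y : HS R) (e : ℤ) :
    (x * y).coeff e = ∑ᶠ i, x.coeff i * y.coeff (e - i) := by
  classical
  rw [HahnSeries.coeff_mul, finsum_eq_sum_of_support_subset
    (s := (Finset.antidiagonal x.isPWO_support y.isPWO_support e).image Prod.fst)]
  · rw [Finset.sum_image]
    · refine Finset.sum_congr rfl fun p hp => ?_
      have := (Finset.mem_antidiagonal.1 hp).2.2
      rw [← this, add_sub_cancel_left]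
    · intro p hp q hq h
      have h1 := (Finset.mem_antidiagonal.1 hp).2.2
      have h2 := (Finset.mem_antidiagonal.1 hq).2.2
      have h3 : p.1 = q.1 := h
      exact Prod.ext h3 (by omega)
  · intro i hi
    rw [Function.mem_support] at hi
    refine Finset.mem_coe.2 (Finset.mem_image.2 ⟨(i, e - i), ?_, rfl⟩)
    exact Finset.mem_antidiagonal.2 ⟨left_ne_zero_of_mul hi, right_ne_zero_of_mul hi, by simp⟩

variable {k : Type*} [Field k]

theorem lcoeff_mul (p q : k[T;T⁻¹]) (n : ℤ) :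
    (p * q).coeff n = ∑ᶠ j, p.coeff j * q.coeff (n - j) := by
  classical
  rw [finsum_eq_sum_of_support_subset (s := p.coeff.support)]
  · rw [AddMonoidAlgebra.coeff_mul, Finsupp.sum]
    refine Finset.sum_congr rfl fun j _ => ?_
    rw [Finsupp.sum, Finset.sum_eq_single (n - j)]
    · simp
    · intro i _ hi
      rw [if_neg (by omega)]
    · intro h
      simp [Finsupp.notMem_support_iff.1 h]
  · intro i hi
    exact Finsupp.mem_support_iff.2 (left_ne_zero_of_mul hi)

/-- The `x ^ n` coefficient as an additive map. -/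
noncomputable def lc (k : Type*) [Field k] (n : ℤ) : k[T;T⁻¹] →+ k where
  toFun p := p.coeff n
  map_zero' := by simp
  map_add' p q := by simp

/-- The coefficient of `t ^ e x ^ n`. -/
def cf (f : HS k[T;T⁻¹]) (e n : ℤ) : k := (f.coeff e).coeff n

theorem cf_add (f g : HS k[T;T⁻¹]) (e n : ℤ) : cf (f + g) e n = cf f e n + cf g e n := by
  simp [cf]

theorem cf_zero (e n : ℤ) : cf (0 : HS k[T;T⁻¹]) e n = 0 := by simp [cf]

theorem eq_zero_of_cf {f : HS k[T;T⁻¹]} (h : ∀ e n, cf f e n = 0) : f = 0 := by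
  ext e n
  simpa [cf] using h e n

theorem cf_mul (f g : HS k[T;T⁻¹]) (e n : ℤ) :
    cf (f * g) e n = ∑ᶠ p : ℤ × ℤ, cf f p.1 p.2 * cf g (e - p.1) (n - p.2) := by
  have hfin := fin_supp f g e
  rw [finsum_curry]
  · change lc k n ((f * g).coeff e) = _
    rw [coeff_mul_finsum, AddMonoidHom.map_finsum]
    · exact finsum_congr fun i => lcoeff_mul _ _ _
    · refine hfin.subset fun i hi => ?_
      exact ⟨left_ne_zero_of_mul hi, right_ne_zero_of_mul hi⟩
  · refine (hfin.biUnion (t := fun i => ({i} : Set ℤ) ×ˢ ((f.coeff i).coeff.support : Set ℤ))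
      fun i _ => (Set.finite_singleton i).prod (Finset.finite_toSet _)).subset ?_
    rintro ⟨i, j⟩ h
    have h1 : cf f i j ≠ 0 := left_ne_zero_of_mul h
    have h2 : cf g (e - i) (n - j) ≠ 0 := right_ne_zero_of_mul h
    refine Set.mem_biUnion (x := i) ⟨fun h0 => h1 ?_, fun h0 => h2 ?_⟩
      ⟨rfl, Finsupp.mem_support_iff.2 h1⟩
    · simp [cf, h0]
    · simp [cf, h0]

/-- `f'` arises from `f` by `x ↦ t ^ a x` and multiplication by `t ^ δ x ^ ν`. -/
def Rel (a δ ν : ℤ) (f f' : HS k[T;T⁻¹]) : Prop :=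
  ∀ e n, cf f' (e + a * n + δ) (n + ν) = cf f e n

theorem Rel.add {a δ ν : ℤ} {f f' g g' : HS k[T;T⁻¹]} (h : Rel a δ ν f f') (h' : Rel a δ ν g g') :
    Rel a δ ν (f + g) (f' + g') := fun e n => by rw [cf_add, cf_add, h, h']

theorem Rel.zero (a δ ν : ℤ) : Rel a δ ν (0 : HS k[T;T⁻¹]) 0 := fun e n => by
  rw [cf_zero, cf_zero]

theorem Rel.mul {a δ ν δ' ν' : ℤ} {f f' g g' : HS k[T;T⁻¹]} (h : Rel a δ ν f f')
    (h' : Rel a δ' ν' g g') : Rel a (δ + δ') (ν + ν') (f * g) (f' * g') := fun e n => by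
  let E : ℤ × ℤ ≃ ℤ × ℤ :=
    { toFun := fun p => (p.1 + a * p.2 + δ, p.2 + ν)
      invFun := fun p => (p.1 - a * (p.2 - ν) - δ, p.2 - ν)
      left_inv := fun p => by ext <;> simp <;> ring
      right_inv := fun p => by ext <;> simp <;> ring }
  rw [cf_mul, cf_mul, ← finsum_comp_equiv E]
  refine finsum_congr fun p => ?_
  have := h' (e - p.1) (n - p.2)
  simp only [E, Equiv.coe_fn_mk]
  rw [h, ← this]
  congr 2 <;> ring

theorem Rel.eq_zero {a δ ν : ℤ} {f : HS k[T;T⁻¹]} (h : Rel a δ ν f 0) : f = 0 :=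
  eq_zero_of_cf fun e n => by rw [← h, cf_zero]

/-- The constants `k((t))` inside `k[x,x⁻¹]((t))`. -/
noncomputable def io (k : Type*) [Field k] : HS k →+* HS k[T;T⁻¹] := mapRH LaurentPolynomial.C

theorem cf_io (q : HS k) (e n : ℤ) : cf (io k q) e n = if n = 0 then q.coeff e else 0 := by
  simp [cf, io]

theorem rel_io (a : ℤ) (q : HS k) : Rel a 0 0 (io k q) (io k q) := fun e n => by
  rw [cf_io, cf_io]
  by_cases h : n = 0 <;> simp [h]

theorem Rel.pow {a δ ν : ℤ} {f f' : HS k[T;T⁻¹]} (h : Rel a δ ν f f') (m : ℕ) :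
    Rel a (m * δ) (m * ν) (f ^ m) (f' ^ m) := by
  induction m with
  | zero => simpa using rel_io a (1 : HS k)
  | succ m ih =>
    have := ih.mul h
    rw [pow_succ, pow_succ]
    push_cast
    rwa [add_mul, add_mul, one_mul, one_mul]

/-- Only exponents `≡ ρ mod 3` of `x` occur. -/
def Cls (ρ : ℤ) (f : HS k[T;T⁻¹]) : Prop := ∀ e n, ¬ (3 : ℤ) ∣ n - ρ → cf f e n = 0

theorem Cls.mul {ρ ρ' : ℤ} {f g : HS k[T;T⁻¹]} (h : Cls ρ f) (h' : Cls ρ' g) :
    Cls (ρ + ρ') (f * g) := fun e n hn => by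
  rw [cf_mul]
  refine finsum_eq_zero_of_forall_eq_zero fun p => ?_
  by_cases hp : (3 : ℤ) ∣ p.2 - ρ
  · rw [h' _ _ (by omega), mul_zero]
  · rw [h _ _ hp, zero_mul]

theorem Cls.add {ρ : ℤ} {f g : HS k[T;T⁻¹]} (h : Cls ρ f) (h' : Cls ρ g) : Cls ρ (f + g) :=
  fun e n hn => by rw [cf_add, h _ _ hn, h' _ _ hn, add_zero]

theorem Cls.congr {ρ ρ' : ℤ} {f : HS k[T;T⁻¹]} (h : Cls ρ f) (hρ : (3 : ℤ) ∣ ρ - ρ') : Cls ρ' f :=
  fun e n hn => h e n (by omega)

theorem cls_io (q : HS k) : Cls 0 (io k q) := fun e n hn => by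
  rw [cf_io, if_neg]
  rintro rfl
  simp at hn

/-- The coefficient of `x ^ n`, a Laurent series in `t`. -/
noncomputable def xc (n : ℤ) (f : HS k[T;T⁻¹]) : HS k := f.map (lc k n)

theorem coeff_xc (n : ℤ) (f : HS k[T;T⁻¹]) (e : ℤ) : (xc n f).coeff e = cf f e n := rfl

theorem xc_add (n : ℤ) (f g : HS k[T;T⁻¹]) : xc n (f + g) = xc n f + xc n g := by
  ext e
  simp [coeff_xc, cf_add]

theorem xc_io_mul (n : ℤ) (q : HS k) (f : HS k[T;T⁻¹]) : xc n (io k q * f) = q * xc n f := by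
  ext e
  rw [coeff_mul_finsum]
  change lc k n ((io k q * f).coeff e) = _
  rw [coeff_mul_finsum, AddMonoidHom.map_finsum]
  · refine finsum_congr fun i => ?_
    change (LaurentPolynomial.C (q.coeff i) * f.coeff (e - i)).coeff n = _
    rw [coeff_xc, ← LaurentPolynomial.single_eq_C, AddMonoidAlgebra.coeff_single_zero_mul]
    rfl
  · refine (fin_supp (io k q) f e).subset fun i hi => ?_
    exact ⟨left_ne_zero_of_mul hi, right_ne_zero_of_mul hi⟩

/-- `f = p t ^ e + ` higher order terms. -/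
def Lead {R : Type*} [Zero R] (f : HS R) (e : ℤ) (p : R) : Prop :=
  f.coeff e = p ∧ ∀ e' < e, f.coeff e' = 0

theorem Lead.mul {R : Type*} [CommRing R] {f g : HS R} {e e' : ℤ} {p q : R} (h : Lead f e p)
    (h' : Lead g e' q) : Lead (f * g) (e + e') (p * q) := by
  constructor
  · rw [coeff_mul_finsum, finsum_eq_single _ e]
    · rw [add_sub_cancel_left, h.1, h'.1]
    · intro i hi
      rcases lt_or_gt_of_ne hi with h1 | h1
      · rw [h.2 i h1, zero_mul]
      · rw [h'.2 _ (by omega), mul_zero]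
  · intro e'' he
    rw [coeff_mul_finsum]
    refine finsum_eq_zero_of_forall_eq_zero fun i => ?_
    by_cases h1 : i < e
    · rw [h.2 i h1, zero_mul]
    · rw [h'.2 _ (by omega), mul_zero]

theorem Lead.pow {R : Type*} [CommRing R] {f : HS R} {e : ℤ} {p : R} (h : Lead f e p) (m : ℕ) :
    Lead (f ^ m) (m * e) (p ^ m) := by
  induction m with
  | zero =>
    refine ⟨by simp, fun e' he => ?_⟩
    have : e' ≠ 0 := by
      simp only [Nat.cast_zero, zero_mul] at he
      omega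
    simp [HahnSeries.coeff_one, this]
  | succ m ih =>
    have := ih.mul h
    rw [pow_succ, pow_succ]
    push_cast
    rwa [add_mul, one_mul]

end Pool.Agent.MP_d0dfcd_ag.H33

end MrgPart0

-- ======== part 1: formerly Pool.Agent.MP_d0dfcd_ag.h33.Theta
section MrgPart1

/-! Theta series of degree three on the Tate curve and the cubic relation between them. -/

namespace Pool.Agent.MP_d0dfcd_ag.H33

open LaurentPolynomial

variable {k : Type*} [Field k]

theorem abs_le_of_quad {B c e n : ℤ} (hB : 1 ≤ B) (h : B * n ^ 2 - c * n = e) :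
    n ∈ Finset.Icc (-(|c| + |e|)) (|c| + |e|) := by
  rw [Finset.mem_Icc, ← abs_le]
  by_contra hlt
  push Not at hlt
  have h1 : c * n ≤ |c| * |n| := by rw [← abs_mul]; exact le_abs_self _
  have h2 : n ^ 2 = |n| ^ 2 := (sq_abs n).symm
  have h3 := le_abs_self e
  have h4 := abs_nonneg c
  have h5 := abs_nonneg e
  have h6 : n ^ 2 ≤ B * n ^ 2 := by nlinarith [sq_nonneg n]
  nlinarith

open Classical in
/-- The theta series `∑_{n ≡ i mod 3} t ^ ((b+1) n² - c n) x ^ n`. -/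
noncomputable def th (k : Type*) [Field k] (b : ℕ) (c i : ℤ) : HS k[T;T⁻¹] :=
  HahnSeries.ofSuppBddBelow (fun e => AddMonoidAlgebra.ofCoeff
    (Finsupp.onFinset (Finset.Icc (-(|c| + |e|)) (|c| + |e|))
      (fun n => if (3 : ℤ) ∣ n - i ∧ ((b : ℤ) + 1) * n ^ 2 - c * n = e then (1 : k) else 0)
      fun n hn => abs_le_of_quad (B := (b : ℤ) + 1) (by omega) (by
        by_contra h
        simp [h] at hn))) (by
    refine ⟨-c ^ 2, fun e he => ?_⟩
    by_contra hlt
    apply he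
    ext n
    simp only [Finsupp.onFinset_apply, AddMonoidAlgebra.coeff_zero, Finsupp.coe_zero,
      Pi.zero_apply]
    rw [if_neg]
    rintro ⟨-, h⟩
    have h6 : n ^ 2 ≤ ((b : ℤ) + 1) * n ^ 2 := by nlinarith [sq_nonneg n, Int.natCast_nonneg b]
    nlinarith [sq_nonneg (n - c), sq_nonneg n, sq_nonneg c])

open Classical in
theorem cf_th (b : ℕ) (c i e n : ℤ) : cf (th k b c i) e n =
    if (3 : ℤ) ∣ n - i ∧ ((b : ℤ) + 1) * n ^ 2 - c * n = e then 1 else 0 := rfl

theorem rel_th (b : ℕ) (c i : ℤ) :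
    Rel (6 * ((b : ℤ) + 1)) (9 * ((b : ℤ) + 1) - 3 * c) 3 (th k b c i) (th k b c i) := fun e n => by
  rw [cf_th, cf_th]
  refine if_congr (and_congr (by omega) ⟨fun h => ?_, fun h => ?_⟩) rfl rfl <;> linarith

theorem rel_th_pos (b : ℕ) (c c' i : ℤ) : Rel (c - c') 0 0 (th k b c i) (th k b c' i) :=
  fun e n => by
  rw [cf_th, cf_th, add_zero, add_zero]
  refine if_congr (and_congr Iff.rfl ⟨fun h => ?_, fun h => ?_⟩) rfl rfl <;> linarith

theorem cls_th (b : ℕ) (c i : ℤ) : Cls i (th k b c i) := fun e n hn => by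
  rw [cf_th, if_neg fun h => hn h.1]

/-- Ternary polynomials over `k((t))`. -/
abbrev P3 (k : Type*) [Field k] := MvPolynomial (Fin 3) (HS k)

/-- Restriction to the Tate curve. -/
noncomputable def ev (b : ℕ) (c : ℤ) : P3 k →+* HS k[T;T⁻¹] :=
  MvPolynomial.eval₂Hom (io k) ![th k b c 0, th k b c 1, th k b c 2]

theorem ev_monomial (b : ℕ) (c : ℤ) (e : Fin 3 →₀ ℕ) (q : HS k) :
    ev b c (MvPolynomial.monomial e q) =
      io k q * (th k b c 0 ^ e 0 * th k b c 1 ^ e 1 * th k b c 2 ^ e 2) := by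
  rw [ev, MvPolynomial.eval₂Hom_monomial, Finsupp.prod_fintype _ _ (by simp), Fin.prod_univ_three]
  rfl

theorem Rel.sum {ι : Type*} {a δ ν : ℤ} (s : Finset ι) {f f' : ι → HS k[T;T⁻¹]}
    (h : ∀ i ∈ s, Rel a δ ν (f i) (f' i)) : Rel a δ ν (∑ i ∈ s, f i) (∑ i ∈ s, f' i) := by
  classical
  induction s using Finset.induction_on with
  | empty => simpa using Rel.zero a δ ν
  | insert i s hi ih =>
    rw [Finset.sum_insert hi, Finset.sum_insert hi]
    exact (h i (by simp)).add (ih fun j hj => h j (by simp [hj]))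

theorem ev_pos (b : ℕ) (c c' : ℤ) {u : P3 k} (h : ev b c' u = 0) : ev b c u = 0 := by
  have : Rel (c - c') 0 0 (ev b c u) (ev b c' u) := by
    rw [u.as_sum, map_sum, map_sum]
    refine Rel.sum _ fun e _ => ?_
    rw [ev_monomial, ev_monomial]
    simpa using (rel_io (c - c') _).mul ((((rel_th_pos b c c' 0).pow (e 0)).mul
      ((rel_th_pos b c c' 1).pow (e 1))).mul ((rel_th_pos b c c' 2).pow (e 2)))
  rw [h] at this
  exact this.eq_zero

theorem deg_three {R : Type*} [CommSemiring R] {u : MvPolynomial (Fin 3) R} {N : ℕ}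
    (hu : u.IsHomogeneous N) {e : Fin 3 →₀ ℕ} (he : e ∈ u.support) : e 0 + e 1 + e 2 = N := by
  have := hu (MvPolynomial.mem_support_iff.1 he)
  rw [Finsupp.weight_apply, Finsupp.sum_fintype _ _ (by simp), Fin.sum_univ_three] at this
  simpa using this

theorem rel_ev (b : ℕ) (c : ℤ) {u : P3 k} {N : ℕ} (hu : u.IsHomogeneous N) :
    Rel (6 * ((b : ℤ) + 1)) (N * (9 * ((b : ℤ) + 1) - 3 * c)) (N * 3) (ev b c u) (ev b c u) := by
  rw [u.as_sum, map_sum]
  refine Rel.sum _ fun e he => ?_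
  rw [ev_monomial, ← deg_three hu he]
  have := (rel_io (6 * ((b : ℤ) + 1)) (u.coeff e)).mul ((((rel_th b c 0).pow (e 0)).mul
      ((rel_th b c 1).pow (e 1))).mul ((rel_th b c 2).pow (e 2)))
  push_cast
  rwa [zero_add, zero_add, ← add_mul, ← add_mul, ← add_mul, ← add_mul] at this

/-- The lowest terms of a theta function lie in a window. -/
theorem window {a δ ν : ℤ} {f : HS k[T;T⁻¹]} (h : Rel a δ ν f f) {e₀ n : ℤ}
    (h0 : ∀ e < e₀, f.coeff e = 0) (hn : cf f e₀ n ≠ 0) :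
    0 ≤ a * n + δ ∧ a * (n - ν) + δ ≤ 0 := by
  constructor
  · by_contra hlt
    apply hn
    rw [← h, cf, h0 _ (by omega)]
    simp
  · by_contra hlt
    apply hn
    have := h (e₀ - a * (n - ν) - δ) (n - ν)
    rw [show e₀ - a * (n - ν) - δ + a * (n - ν) + δ = e₀ by ring, sub_add_cancel] at this
    rw [this, cf, h0 _ (by omega)]
    simp

theorem lead_th0 (b : ℕ) : Lead (th k b (b + 1) 0) 0 1 := by
  have hb : (0 : ℤ) < b + 1 := by omega
  refine ⟨LaurentPolynomial.ext fun n => ?_, fun e he => LaurentPolynomial.ext fun n => ?_⟩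
  · change cf _ _ _ = (T 0 : k[T;T⁻¹]).coeff n
    rw [cf_th, T_apply]
    refine if_congr ⟨fun ⟨h1, h2⟩ => ?_, ?_⟩ rfl rfl
    · have : n * (n - 1) = 0 := mul_left_cancel₀ hb.ne' (by linarith)
      rcases mul_eq_zero.1 this with h | h <;> omega
    · rintro rfl
      simp
  · change cf _ _ _ = 0
    rw [cf_th, if_neg]
    rintro ⟨-, h⟩
    have : 0 ≤ n * (n - 1) := by rcases le_or_gt n 0 with h | h <;> nlinarith
    nlinarith

theorem lead_th1 (b : ℕ) : Lead (th k b (b + 1) 1) 0 (T 1) := by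
  have hb : (0 : ℤ) < b + 1 := by omega
  refine ⟨LaurentPolynomial.ext fun n => ?_, fun e he => LaurentPolynomial.ext fun n => ?_⟩
  · change cf _ _ _ = _
    rw [cf_th, T_apply]
    refine if_congr ⟨fun ⟨h1, h2⟩ => ?_, ?_⟩ rfl rfl
    · have : n * (n - 1) = 0 := mul_left_cancel₀ hb.ne' (by linarith)
      rcases mul_eq_zero.1 this with h | h <;> omega
    · rintro rfl
      simp
  · change cf _ _ _ = 0
    rw [cf_th, if_neg]
    rintro ⟨-, h⟩
    have : 0 ≤ n * (n - 1) := by rcases le_or_gt n 0 with h | h <;> nlinarith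
    nlinarith

theorem lead_th2 (b : ℕ) : Lead (th k b (b + 1) 2) (2 * ((b : ℤ) + 1)) (T (-1) + T 2) := by
  have hb : (0 : ℤ) < b + 1 := by omega
  refine ⟨LaurentPolynomial.ext fun n => ?_, fun e he => LaurentPolynomial.ext fun n => ?_⟩
  · change cf _ _ _ = _
    rw [cf_th, AddMonoidAlgebra.coeff_add, Finsupp.add_apply, T_apply, T_apply]
    by_cases h1 : -1 = n
    · subst h1
      rw [if_pos ⟨by norm_num, by ring⟩]
      simp
    · by_cases h2 : 2 = n
      · subst h2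
        rw [if_pos ⟨by norm_num, by ring⟩]
        simp
      · rw [if_neg h1, if_neg h2, add_zero, if_neg]
        rintro ⟨-, h⟩
        have : (n + 1) * (n - 2) = 0 := mul_left_cancel₀ hb.ne' (by linarith)
        rcases mul_eq_zero.1 this with h | h <;> omega
  · change cf _ _ _ = 0
    rw [cf_th, if_neg]
    rintro ⟨h3, h⟩
    have : 0 ≤ (n + 1) * (n - 2) := by
      rcases (by omega : n ≤ -1 ∨ 2 ≤ n) with h | h <;> nlinarith
    nlinarith

/-- The parametrisation of the nodal cubic. -/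
noncomputable def nod (k : Type*) [Field k] : MvPolynomial (Fin 3) k →+* k[T;T⁻¹] :=
  MvPolynomial.eval₂Hom LaurentPolynomial.C ![1, T 1, T (-1) + T 2]

theorem nod_monomial (e : Fin 3 →₀ ℕ) (q : k) :
    nod k (MvPolynomial.monomial e q) =
      LaurentPolynomial.C q * (1 ^ e 0 * T 1 ^ e 1 * (T (-1) + T 2) ^ e 2) := by
  rw [nod, MvPolynomial.eval₂Hom_monomial, Finsupp.prod_fintype _ _ (by simp), Fin.prod_univ_three]
  rfl

/-- A relation on the Tate curve reduces to a relation on the nodal cubic. -/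
theorem red (b : ℕ) (c : ℤ) {u : P3 k} (hu : u ≠ 0) (h : ev b c u = 0) :
    ∃ v : (Fin 3 →₀ ℕ) → k, (∃ e ∈ u.support, v e ≠ 0) ∧
      ∑ e ∈ u.support, nod k (MvPolynomial.monomial e (v e)) = 0 := by
  replace h := ev_pos b (b + 1) c h
  obtain ⟨e₁, he₁, hmin⟩ := u.support.exists_min_image
    (fun e => (u.coeff e).order + e 2 * (2 * ((b : ℤ) + 1))) (MvPolynomial.support_nonempty.2 hu)
  set e₀ := (u.coeff e₁).order + e₁ 2 * (2 * ((b : ℤ) + 1)) with he₀
  refine ⟨fun e => (u.coeff e).coeff (e₀ - e 2 * (2 * ((b : ℤ) + 1))), ⟨e₁, he₁, ?_⟩, ?_⟩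
  · simp only [he₀, add_sub_cancel_right]
    exact HahnSeries.coeff_order_eq_zero.not.2 (MvPolynomial.mem_support_iff.1 he₁)
  · have h1 := congrArg (fun f => HahnSeries.coeff f e₀) h
    simp only [HahnSeries.coeff_zero] at h1
    rw [u.as_sum, map_sum, HahnSeries.coeff_sum] at h1
    rw [← h1]
    refine Finset.sum_congr rfl fun e he => ?_
    have a1 : Lead (io k (u.coeff e)) (e₀ - e 2 * (2 * ((b : ℤ) + 1)))
        (LaurentPolynomial.C ((u.coeff e).coeff (e₀ - e 2 * (2 * ((b : ℤ) + 1))))) := by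
      refine ⟨rfl, fun e' he' => ?_⟩
      have := hmin e he
      rw [io, coeff_mapRH, HahnSeries.coeff_eq_zero_of_lt_order (by omega), map_zero]
    have a2 := (a1.mul ((((lead_th0 (k := k) b).pow (e 0)).mul ((lead_th1 b).pow (e 1))).mul
      ((lead_th2 b).pow (e 2)))).1
    rw [ev_monomial, nod_monomial, ← a2]
    congr 1
    ring

/-- Monic at both ends. -/
def Bd (p : k[T;T⁻¹]) (lo hi : ℤ) : Prop :=
  p.coeff lo = 1 ∧ p.coeff hi = 1 ∧ ∀ n, n < lo ∨ hi < n → p.coeff n = 0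

theorem Bd.mul {p q : k[T;T⁻¹]} {lo hi lo' hi' : ℤ} (h : Bd p lo hi) (h' : Bd q lo' hi') :
    Bd (p * q) (lo + lo') (hi + hi') := by
  refine ⟨?_, ?_, fun n hn => ?_⟩
  · rw [lcoeff_mul, finsum_eq_single _ lo]
    · rw [add_sub_cancel_left, h.1, h'.1, one_mul]
    · intro i hi
      rcases lt_or_gt_of_ne hi with h1 | h1
      · rw [h.2.2 i (.inl h1), zero_mul]
      · rw [h'.2.2 _ (.inl (by omega)), mul_zero]
  · rw [lcoeff_mul, finsum_eq_single _ hi]
    · rw [add_sub_cancel_left, h.2.1, h'.2.1, one_mul]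
    · intro i hi
      rcases lt_or_gt_of_ne hi with h1 | h1
      · rw [h'.2.2 _ (.inr (by omega)), mul_zero]
      · rw [h.2.2 i (.inr h1), zero_mul]
  · rw [lcoeff_mul]
    refine finsum_eq_zero_of_forall_eq_zero fun i => ?_
    by_cases h1 : i < lo ∨ hi < i
    · rw [h.2.2 i h1, zero_mul]
    · rw [h'.2.2 _ (by omega), mul_zero]

theorem bd_T (n : ℤ) : Bd (T n : k[T;T⁻¹]) n n :=
  ⟨by simp, by simp, fun m hm => by rw [T_apply, if_neg (by omega)]⟩

theorem Bd.pow {p : k[T;T⁻¹]} {lo hi : ℤ} (h : Bd p lo hi) (m : ℕ) :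
    Bd (p ^ m) (m * lo) (m * hi) := by
  induction m with
  | zero => simpa using bd_T (k := k) 0
  | succ m ih =>
    have := ih.mul h
    rw [pow_succ]
    push_cast
    rwa [add_mul, add_mul, one_mul, one_mul]

theorem bd_node : Bd (T (-1) + T 2 : k[T;T⁻¹]) (-1) 2 := by
  refine ⟨by simp, by simp, fun m hm => ?_⟩
  rw [AddMonoidAlgebra.coeff_add, Finsupp.add_apply, T_apply, T_apply, if_neg (by omega),
    if_neg (by omega), add_zero]

theorem coeff_nod (e : Fin 3 →₀ ℕ) (q : k) :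
    (nod k (MvPolynomial.monomial e q)).coeff ((e 1 : ℤ) - e 2) = q ∧
    (nod k (MvPolynomial.monomial e q)).coeff ((e 1 : ℤ) + 2 * e 2) = q ∧
    ∀ n : ℤ, n < (e 1 : ℤ) - e 2 ∨ (e 1 : ℤ) + 2 * e 2 < n →
      (nod k (MvPolynomial.monomial e q)).coeff n = 0 := by
  have h := ((bd_T (k := k) 1).pow (e 1)).mul (bd_node.pow (e 2))
  rw [show (e 1 : ℤ) * 1 + e 2 * -1 = (e 1 : ℤ) - e 2 by ring,
    show (e 1 : ℤ) * 1 + e 2 * 2 = (e 1 : ℤ) + 2 * e 2 by ring] at h
  simp only [nod_monomial, one_pow, one_mul, ← LaurentPolynomial.single_eq_C,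
    AddMonoidAlgebra.coeff_single_zero_mul]
  exact ⟨by rw [h.1, mul_one], by rw [h.2.1, mul_one], fun n hn => by rw [h.2.2 n hn, mul_zero]⟩

/-- A sum of monomial terms with a unique extreme term is nonzero. -/
theorem uniq_term {s : Finset (Fin 3 →₀ ℕ)} {v : (Fin 3 →₀ ℕ) → k}
    (h : ∑ e ∈ s, nod k (MvPolynomial.monomial e (v e)) = 0) {e₁ : Fin 3 →₀ ℕ} (he₁ : e₁ ∈ s)
    (hu : (∀ e ∈ s, v e ≠ 0 → e ≠ e₁ → (e₁ 1 : ℤ) - e₁ 2 < (e 1 : ℤ) - e 2) ∨
      ∀ e ∈ s, v e ≠ 0 → e ≠ e₁ → (e 1 : ℤ) + 2 * e 2 < (e₁ 1 : ℤ) + 2 * e₁ 2) : v e₁ = 0 := by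
  rcases hu with hu | hu
  · have h1 := congrArg (lc k ((e₁ 1 : ℤ) - e₁ 2)) h
    rw [map_sum, map_zero, Finset.sum_eq_single_of_mem e₁ he₁] at h1
    · exact (coeff_nod e₁ (v e₁)).1.symm.trans h1
    · intro e he hne
      by_cases hv : v e = 0
      · simp [hv]
      · exact (coeff_nod e (v e)).2.2 _ (.inl (hu e he hv hne))
  · have h1 := congrArg (lc k ((e₁ 1 : ℤ) + 2 * e₁ 2)) h
    rw [map_sum, map_zero, Finset.sum_eq_single_of_mem e₁ he₁] at h1
    · exact (coeff_nod e₁ (v e₁)).2.1.symm.trans h1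
    · intro e he hne
      by_cases hv : v e = 0
      · simp [hv]
      · exact (coeff_nod e (v e)).2.2 _ (.inr (hu e he hv hne))

theorem ext_three {e e' : Fin 3 →₀ ℕ} (h0 : e 0 = e' 0) (h1 : e 1 = e' 1) (h2 : e 2 = e' 2) :
    e = e' := by
  ext i
  fin_cases i
  exacts [h0, h1, h2]

/-- No form of degree at most two in the first variable vanishes on the curve. -/
theorem eq_zero_of_ev (b : ℕ) (c : ℤ) {u : P3 k} {N : ℕ} (hu : u.IsHomogeneous N)
    (h2 : ∀ e ∈ u.support, e 0 ≤ 2) (h : ev b c u = 0) : u = 0 := by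
  classical
  by_contra hne
  obtain ⟨v, ⟨e₀, he₀, hv₀⟩, hv⟩ := red b c hne h
  obtain ⟨e₁, he₁, hmax⟩ := (u.support.filter fun e => v e ≠ 0).exists_max_image
    (fun e => 8 * e 2 + 3 * e 0) ⟨e₀, Finset.mem_filter.2 ⟨he₀, hv₀⟩⟩
  rw [Finset.mem_filter] at he₁
  apply he₁.2
  have key : ∀ e ∈ u.support, v e ≠ 0 → e ≠ e₁ → 8 * e 2 + 3 * e 0 ≤ 8 * e₁ 2 + 3 * e₁ 0 ∧
      e 0 + e 1 + e 2 = e₁ 0 + e₁ 1 + e₁ 2 ∧ e 0 ≤ 2 ∧ e₁ 0 ≤ 2 ∧
      ¬ (e 0 = e₁ 0 ∧ e 1 = e₁ 1 ∧ e 2 = e₁ 2) := fun e he hv hne =>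
    ⟨hmax e (Finset.mem_filter.2 ⟨he, hv⟩), by rw [deg_three hu he, deg_three hu he₁.1], h2 e he,
      h2 e₁ he₁.1, fun h => hne (ext_three h.1 h.2.1 h.2.2)⟩
  refine uniq_term hv he₁.1 ?_
  by_cases h0 : e₁ 0 = 0
  · refine .inr fun e he hv hne => ?_
    have := key e he hv hne
    omega
  · refine .inl fun e he hv hne => ?_
    have := key e he hv hne
    omega

/-- No diagonal cubic vanishes on the curve. -/
theorem eq_zero_of_ev_diag (b : ℕ) (c : ℤ) {u : P3 k} (hu : u.IsHomogeneous 3)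
    (h2 : ∀ e ∈ u.support, e 0 = 3 ∨ e 1 = 3 ∨ e 2 = 3) (h : ev b c u = 0) : u = 0 := by
  classical
  by_contra hne
  obtain ⟨v, ⟨e₀, he₀, hv₀⟩, hv⟩ := red b c hne h
  obtain ⟨e₁, he₁, hmax⟩ := (u.support.filter fun e => v e ≠ 0).exists_max_image
    (fun e => e 1 + 2 * e 2) ⟨e₀, Finset.mem_filter.2 ⟨he₀, hv₀⟩⟩
  rw [Finset.mem_filter] at he₁
  apply he₁.2
  refine uniq_term hv he₁.1 (.inr fun e he hv hne => ?_)
  have a1 := hmax e (Finset.mem_filter.2 ⟨he, hv⟩)
  have a2 := deg_three hu he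
  have a3 := deg_three hu he₁.1
  have a4 := h2 e he
  have a5 := h2 e₁ he₁.1
  have a6 : ¬ (e 0 = e₁ 0 ∧ e 1 = e₁ 1 ∧ e 2 = e₁ 2) := fun h => hne (ext_three h.1 h.2.1 h.2.2)
  omega

end Pool.Agent.MP_d0dfcd_ag.H33

end MrgPart1

-- ======== part 2: formerly Pool.Agent.MP_d0dfcd_ag.h33.Cubic
section MrgPart2

/-! The plane cubic parametrised by the theta series and the degeneration to its normal cone. -/

namespace Pool.Agent.MP_d0dfcd_ag.H33

open LaurentPolynomial MvPolynomial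

variable {k : Type*} [Field k]

/-- Exponent vectors. -/
noncomputable def fs (a b c : ℕ) : Fin 3 →₀ ℕ := Finsupp.equivFunOnFinite.symm ![a, b, c]

@[simp] theorem fs0 (a b c : ℕ) : fs a b c 0 = a := rfl
@[simp] theorem fs1 (a b c : ℕ) : fs a b c 1 = b := rfl
@[simp] theorem fs2 (a b c : ℕ) : fs a b c 2 = c := rfl

theorem fs_eq_iff {a b c : ℕ} {e : Fin 3 →₀ ℕ} : fs a b c = e ↔ a = e 0 ∧ b = e 1 ∧ c = e 2 :=
  ⟨fun h => h ▸ ⟨rfl, rfl, rfl⟩, fun h => ext_three h.1 h.2.1 h.2.2⟩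

theorem hom_monomial {R : Type*} [CommSemiring R] {e : Fin 3 →₀ ℕ} {N : ℕ}
    (h : e 0 + e 1 + e 2 = N) (q : R) : (monomial e q).IsHomogeneous N :=
  isHomogeneous_monomial _ (by rw [Finsupp.degree_eq_sum, Fin.sum_univ_three, h])

theorem monomial_three {R : Type*} [CommSemiring R] (e : Fin 3 →₀ ℕ) (q : R) :
    monomial e q = MvPolynomial.C q * (X 0 ^ e 0 * X 1 ^ e 1 * X 2 ^ e 2) := by
  rw [monomial_eq, Finsupp.prod_fintype _ _ (by simp), Fin.prod_univ_three]

/-- A cubic of Hesse type. -/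
noncomputable def cub (q : Fin 4 → HS k) : P3 k :=
  monomial (fs 1 1 1) (q 0) + monomial (fs 3 0 0) (q 1) + monomial (fs 0 3 0) (q 2) +
    monomial (fs 0 0 3) (q 3)

theorem hom_cub (q : Fin 4 → HS k) : (cub q).IsHomogeneous 3 := by
  have a0 : (monomial (fs 1 1 1) (q 0) : P3 k).IsHomogeneous 3 := hom_monomial (by simp) _
  have a1 : (monomial (fs 3 0 0) (q 1) : P3 k).IsHomogeneous 3 := hom_monomial (by simp) _
  have a2 : (monomial (fs 0 3 0) (q 2) : P3 k).IsHomogeneous 3 := hom_monomial (by simp) _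
  have a3 : (monomial (fs 0 0 3) (q 3) : P3 k).IsHomogeneous 3 := hom_monomial (by simp) _
  exact ((a0.add a1).add a2).add a3

theorem cub_ne_zero {q : Fin 4 → HS k} (hq : q ≠ 0) : cub q ≠ 0 := by
  intro h
  apply hq
  have h0 := congrArg (coeff (fs 1 1 1)) h
  have h1 := congrArg (coeff (fs 3 0 0)) h
  have h2 := congrArg (coeff (fs 0 3 0)) h
  have h3 := congrArg (coeff (fs 0 0 3)) h
  simp [cub, coeff_monomial, fs_eq_iff] at h0 h1 h2 h3
  funext i
  fin_cases i
  exacts [h0, h1, h2, h3]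

theorem supp_cub {q : Fin 4 → HS k} {e : Fin 3 →₀ ℕ} (he : e ∈ (cub q).support) :
    (fs 1 1 1 = e ∧ q 0 ≠ 0) ∨ (fs 3 0 0 = e ∧ q 1 ≠ 0) ∨ fs 0 3 0 = e ∨ fs 0 0 3 = e := by
  classical
  by_contra hn
  push Not at hn
  apply mem_support_iff.1 he
  simp only [cub, coeff_add, coeff_monomial, if_neg hn.2.2.1, if_neg hn.2.2.2, add_zero]
  by_cases h0 : fs 1 1 1 = e <;> by_cases h1 : fs 3 0 0 = e <;> simp [h0, h1, hn.1, hn.2.1]

theorem exists_cub (b : ℕ) (c : ℤ) : ∃ q : Fin 4 → HS k, q ≠ 0 ∧ ev b c (cub q) = 0 := by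
  let m : Fin 4 → HS k[T;T⁻¹] := ![th k b c 0 * th k b c 1 * th k b c 2,
    th k b c 0 * th k b c 0 * th k b c 0, th k b c 1 * th k b c 1 * th k b c 1,
    th k b c 2 * th k b c 2 * th k b c 2]
  let M : Matrix (Fin 3) (Fin 4) (HS k) := Matrix.of fun i j => xc (3 * (i : ℕ)) (m j)
  have hk := LinearMap.ker_ne_bot_of_finrank_lt (f := M.mulVecLin) (by simp)
  obtain ⟨q, hq, hq0⟩ := Submodule.exists_mem_ne_zero_of_ne_bot hk
  refine ⟨q, hq0, ?_⟩
  have hf : ev b c (cub q) =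
      io k (q 0) * m 0 + io k (q 1) * m 1 + io k (q 2) * m 2 + io k (q 3) * m 3 := by
    simp only [cub, map_add, ev_monomial, fs0, fs1, fs2, m, Matrix.cons_val]
    ring
  have hc : Cls 0 (ev b c (cub q)) := by
    have t0 := cls_th (k := k) b c 0
    have t1 := cls_th (k := k) b c 1
    have t2 := cls_th (k := k) b c 2
    rw [hf]
    exact ((((cls_io _).mul ((t0.mul t1).mul t2)).congr (by norm_num)).add
      (((cls_io _).mul ((t0.mul t0).mul t0)).congr (by norm_num))).add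
      (((cls_io _).mul ((t1.mul t1).mul t1)).congr (by norm_num)) |>.add
      (((cls_io _).mul ((t2.mul t2).mul t2)).congr (by norm_num))
  have hx : ∀ i : Fin 3, ∀ e, cf (ev b c (cub q)) e (3 * (i : ℕ)) = 0 := fun i e => by
    have := congrFun (LinearMap.mem_ker.1 hq) i
    simp only [Matrix.mulVecLin_apply, Matrix.mulVec, dotProduct, Fin.sum_univ_four, M,
      Matrix.of_apply, Pi.zero_apply] at this
    rw [← coeff_xc, hf, xc_add, xc_add, xc_add, xc_io_mul, xc_io_mul, xc_io_mul, xc_io_mul,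
      mul_comm (q 0), mul_comm (q 1), mul_comm (q 2), mul_comm (q 3), this]
    simp
  have hr := rel_ev b c (hom_cub q)
  have step : ∀ n₀ : ℤ, (∀ e, cf (ev b c (cub q)) e n₀ = 0) →
      ∀ j : ℤ, ∀ e, cf (ev b c (cub q)) e (n₀ + 9 * j) = 0 := by
    intro n₀ h0 j
    induction j using Int.induction_on with
    | zero => simpa using h0
    | succ j ih =>
      intro e
      have := hr (e - 6 * ((b : ℤ) + 1) * (n₀ + 9 * j) - (3 : ℕ) * (9 * ((b : ℤ) + 1) - 3 * c))
        (n₀ + 9 * j)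
      rw [ih] at this
      rw [← this]
      congr 1 <;> push_cast <;> ring
    | pred j ih =>
      intro e
      rw [← hr, show n₀ + 9 * (-(j : ℤ) - 1) + (3 : ℕ) * 3 = n₀ + 9 * -(j : ℤ) by
        push_cast; ring, ih]
  refine eq_zero_of_cf fun e n => ?_
  by_cases h3 : (3 : ℤ) ∣ n - 0
  · rcases (by omega : n % 9 = 0 ∨ n % 9 = 3 ∨ n % 9 = 6) with h | h | h
    · have := step _ (hx 0) (n / 9) e
      rwa [show 3 * (((0 : Fin 3) : ℕ) : ℤ) + 9 * (n / 9) = n by simp; omega] at this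
    · have := step _ (hx 1) (n / 9) e
      rwa [show 3 * (((1 : Fin 3) : ℕ) : ℤ) + 9 * (n / 9) = n by simp; omega] at this
    · have := step _ (hx 2) (n / 9) e
      rwa [show 3 * (((2 : Fin 3) : ℕ) : ℤ) + 9 * (n / 9) = n by simp; omega] at this
  · exact hc e n h3

/-- `H` is a multiple of `G` up to a remainder of degree at most two in the first variable. -/
def Dv (G : P3 k) (D : ℕ) (H : P3 k) : Prop :=
  ∃ Q R : P3 k, Q.IsHomogeneous D ∧ R.IsHomogeneous (D + 3) ∧ R.degreeOf 0 ≤ 2 ∧ H = G * Q + R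

theorem Dv.add {G H H' : P3 k} {D : ℕ} (h : Dv G D H) (h' : Dv G D H') : Dv G D (H + H') := by
  obtain ⟨Q, R, a1, a2, a3, rfl⟩ := h
  obtain ⟨Q', R', b1, b2, b3, rfl⟩ := h'
  exact ⟨Q + Q', R + R', a1.add b1, a2.add b2, (degreeOf_add_le _ _ _).trans (max_le a3 b3),
    by ring⟩

theorem dv_monomial {q : Fin 4 → HS k} (h1 : q 1 ≠ 0) (D n : ℕ) : ∀ (e : Fin 3 →₀ ℕ) (a : HS k),
    e 0 ≤ n → e 0 + e 1 + e 2 = D + 3 → Dv (cub q) D (monomial e a) := by
  have base : ∀ (e : Fin 3 →₀ ℕ) (a : HS k), e 0 ≤ 2 → e 0 + e 1 + e 2 = D + 3 →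
      Dv (cub q) D (monomial e a) := fun e a h hd =>
    ⟨0, monomial e a, isHomogeneous_zero _ _ _, hom_monomial hd _,
      degreeOf_le_iff.2 fun m hm => by
        classical
        rw [Finset.mem_singleton.1 (support_monomial_subset hm)]
        exact h, by simp⟩
  induction n with
  | zero => exact fun e a h hd => base e a (by omega) hd
  | succ n ih =>
    intro e a h hd
    by_cases h2 : e 0 ≤ 2
    · exact base e a h2 hd
    · obtain ⟨u, hu⟩ : ∃ u, e 0 = u + 3 := ⟨e 0 - 3, by omega⟩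
      have key : monomial e a = cub q * monomial (fs u (e 1) (e 2)) (a / q 1) +
          (monomial (fs (u + 1) (e 1 + 1) (e 2 + 1)) (-(q 0 * (a / q 1))) +
          monomial (fs u (e 1 + 3) (e 2)) (-(q 2 * (a / q 1))) +
          monomial (fs u (e 1) (e 2 + 3)) (-(q 3 * (a / q 1)))) := by
        have : (MvPolynomial.C a : P3 k) = MvPolynomial.C (q 1) * MvPolynomial.C (a / q 1) := by
          rw [← map_mul, mul_div_cancel₀ _ h1]
        simp only [cub, monomial_three, fs0, fs1, fs2, hu, map_neg, map_mul]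
        rw [this]
        ring
      rw [key]
      refine Dv.add ⟨_, 0, hom_monomial (by simp; omega) _, isHomogeneous_zero _ _ _, by simp,
        (add_zero _).symm⟩ (((ih _ _ ?_ ?_).add (ih _ _ ?_ ?_)).add (ih _ _ ?_ ?_)) <;>
      simp only [fs0, fs1, fs2] <;> omega

theorem dv_of_hom {q : Fin 4 → HS k} (h1 : q 1 ≠ 0) {D : ℕ} {H : P3 k}
    (hH : H.IsHomogeneous (D + 3)) : Dv (cub q) D H := by
  rw [H.as_sum]
  refine Finset.sum_induction _ _ (fun _ _ => Dv.add)
    ⟨0, 0, isHomogeneous_zero _ _ _, isHomogeneous_zero _ _ _, by simp, by simp⟩ fun e he => ?_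
  exact dv_monomial h1 D _ e _ le_rfl (deg_three hH he)

theorem exists_cubic (b : ℕ) (c : ℤ) : ∃ q : Fin 4 → HS k, ev b c (cub q) = 0 ∧
    io k (q 0) * (th k b c 0 * th k b c 2) + 3 * io k (q 2) * th k b c 1 ^ 2 ≠ 0 ∧
    ∀ (D : ℕ) (H : P3 k), H.IsHomogeneous D → ev b c H = 0 →
      H = 0 ∨ ∃ (D' : ℕ) (Q : P3 k), D' + 3 = D ∧ Q.IsHomogeneous D' ∧ H = cub q * Q := by
  obtain ⟨q, hq, h⟩ := exists_cub (k := k) b c
  have h0 : q 0 ≠ 0 := fun h0 => cub_ne_zero hq (eq_zero_of_ev_diag b c (hom_cub q)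
    (fun e he => by rcases supp_cub he with ⟨-, h⟩ | ⟨rfl, -⟩ | rfl | rfl <;> simp_all) h)
  have h1 : q 1 ≠ 0 := fun h1 => cub_ne_zero hq (eq_zero_of_ev b c (hom_cub q)
    (fun e he => by rcases supp_cub he with ⟨rfl, -⟩ | ⟨-, h⟩ | rfl | rfl <;> simp_all) h)
  refine ⟨q, h, fun hg => h0 ?_, fun D H hH hev => ?_⟩
  · have hh : (monomial (fs 1 0 1) (q 0) + monomial (fs 0 2 0) (3 * q 2) : P3 k).IsHomogeneous 2 :=
      (hom_monomial (by simp) _).add (hom_monomial (by simp) _)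
    have := eq_zero_of_ev b c hh (fun e he => by have := deg_three hh he; omega) (by
      rw [← hg]
      simp only [map_add, ev_monomial, fs0, fs1, fs2, map_mul, map_ofNat]
      ring)
    simpa [coeff_monomial, fs_eq_iff] using congrArg (coeff (fs 1 0 1)) this
  · by_cases hD : D < 3
    · exact .inl (eq_zero_of_ev b c hH (fun e he => by have := deg_three hH he; omega) hev)
    · obtain ⟨D', rfl⟩ : ∃ D', D = D' + 3 := ⟨D - 3, by omega⟩
      obtain ⟨Q, R, a1, a2, a3, a4⟩ := dv_of_hom h1 hH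
      have : R = 0 := eq_zero_of_ev b c a2 (degreeOf_le_iff.1 a3) (by
        rwa [a4, map_add, map_mul, h, zero_mul, zero_add] at hev)
      exact .inr ⟨D', Q, rfl, a1, by rw [a4, this, add_zero]⟩

/-- The initial form along the curve of a family of forms. -/
theorem eps_step {S B : Type*} [CommRing S] [CommRing B] (φ : S →+* B) (G : S)
    (Hm : ℕ → S → Prop) (hG : ∀ D H, Hm D H → φ H = 0 →
      H = 0 ∨ ∃ D' Q, D' + 3 = D ∧ Hm D' Q ∧ H = G * Q) (d : ℕ) (P : Polynomial S) (hP : P ≠ 0)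
    (hd : ∀ n, Hm d (P.coeff n)) : ∃ (N : ℕ) (H : ℕ → S),
      (∀ n ≤ N, P.coeff n = G ^ (N - n) * H n ∧
        (H n = 0 ∨ ∃ D', D' + 3 * (N - n) = d ∧ Hm D' (H n))) ∧ ∃ n ≤ N, φ (H n) ≠ 0 := by
  by_contra hcon
  push Not at hcon
  have all : ∀ N : ℕ, ∃ H : ℕ → S, ∀ n ≤ N, P.coeff n = G ^ (N - n) * H n ∧
      (H n = 0 ∨ ∃ D', D' + 3 * (N - n) = d ∧ Hm D' (H n)) := by
    intro N
    induction N with
    | zero => exact ⟨P.coeff, fun n _ => ⟨by simp, .inr ⟨d, by simp, hd n⟩⟩⟩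
    | succ N ih =>
      obtain ⟨H, hH⟩ := ih
      have hz := hcon N H hH
      have : ∀ n, ∃ Q, n ≤ N + 1 → P.coeff n = G ^ (N + 1 - n) * Q ∧
          (Q = 0 ∨ ∃ D', D' + 3 * (N + 1 - n) = d ∧ Hm D' Q) := by
        intro n
        by_cases hn : n ≤ N
        · obtain ⟨a1, a2 | ⟨D', a2, a3⟩⟩ := hH n hn
          · exact ⟨0, fun _ => ⟨by rw [a1, a2, mul_zero, mul_zero], .inl rfl⟩⟩
          · rcases hG D' _ a3 (hz n hn) with a4 | ⟨D'', Q, a4, a5, a6⟩
            · exact ⟨0, fun _ => ⟨by rw [a1, a4, mul_zero, mul_zero], .inl rfl⟩⟩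
            · refine ⟨Q, fun _ => ⟨?_, .inr ⟨D'', by omega, a5⟩⟩⟩
              rw [a1, a6, show N + 1 - n = N - n + 1 by omega, pow_succ, mul_assoc]
        · refine ⟨P.coeff n, fun h => ?_⟩
          rw [show N + 1 - n = 0 by omega]
          exact ⟨by simp, .inr ⟨d, by simp, hd n⟩⟩
      choose Q hQ using this
      exact ⟨Q, fun n hn => hQ n hn⟩
  apply hP
  ext n
  obtain ⟨H, hH⟩ := all (n + d + 1)
  obtain ⟨a1, a2 | ⟨D', a2, -⟩⟩ := hH n (by omega)
  · rw [a1, a2, mul_zero, Polynomial.coeff_zero]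
  · omega

theorem eps_coeff {S T : Type*} [CommRing S] [CommRing T] (ψ : S →+* Polynomial T) {G : S}
    {Γ : Polynomial T} (hG : ψ G = Polynomial.X * Γ) (P : Polynomial S) (N : ℕ) (H : ℕ → S)
    (h : ∀ n ≤ N, P.coeff n = G ^ (N - n) * H n) :
    (P.eval₂ ψ Polynomial.X).coeff N =
      ∑ n ∈ Finset.range (N + 1), Γ.coeff 0 ^ (N - n) * (ψ (H n)).coeff 0 := by
  rw [Polynomial.eval₂_eq_sum_range' ψ (n := P.natDegree + N + 1) (by omega),
    Polynomial.finsetSum_coeff,
    ← Finset.sum_subset (s₁ := Finset.range (N + 1)) (Finset.range_subset_range.2 (by omega))]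
  · refine Finset.sum_congr rfl fun n hn => ?_
    have hn' : n ≤ N := by simpa [Nat.lt_succ_iff] using hn
    rw [Polynomial.coeff_mul_X_pow', if_pos hn', h n hn', map_mul, map_pow, hG, mul_pow, mul_assoc,
      Polynomial.coeff_X_pow_mul', if_pos le_rfl, Nat.sub_self, Polynomial.mul_coeff_zero,
      Polynomial.coeff_zero_eq_eval_zero, Polynomial.eval_pow,
      ← Polynomial.coeff_zero_eq_eval_zero]
  · intro n _ hn
    rw [Polynomial.coeff_mul_X_pow', if_neg (by simpa [Nat.lt_succ_iff] using hn)]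

end Pool.Agent.MP_d0dfcd_ag.H33

end MrgPart2

-- ======== part 3: formerly Pool.Agent.MP_d0dfcd_ag.h33.Local
section MrgPart3

/-! Local expansions along the curve and the final count in the sheared triangle. -/

namespace Pool.Agent.MP_d0dfcd_ag.H33

open Polynomial
open scoped LaurentPolynomial

variable {k : Type*} [Field k]

theorem unit_ps (ξ : kˣ) : IsUnit (PowerSeries.C (ξ : k) + PowerSeries.X) :=
  PowerSeries.isUnit_iff_constantCoeff.2 (by simp)

/-- Expansion at `x = ξ`. -/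
noncomputable def evx (ξ : kˣ) : k[T;T⁻¹] →+* PowerSeries k :=
  LaurentPolynomial.eval₂ PowerSeries.C (unit_ps ξ).unit

theorem dvd_of_taylor {P : k[X]} {a : k} {n : ℕ} (h : X ^ n ∣ taylor a P) : (X - C a) ^ n ∣ P := by
  obtain ⟨g, hg⟩ := h
  refine ⟨g.comp (X - C a), ?_⟩
  have := congrArg (fun p => p.comp (X - C a)) hg
  simpa [taylor_apply, comp_assoc] using this

theorem evx_toLaurent (ξ : kˣ) (P : k[X]) :
    evx ξ (toLaurent P) = ((taylor (ξ : k) P : k[X]) : PowerSeries k) := by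
  rw [evx, LaurentPolynomial.eval₂_toLaurent, IsUnit.unit_spec]
  induction P using Polynomial.induction_on' with
  | add p q hp hq => simp [eval₂_add, hp, hq]
  | monomial n a => simp [taylor_monomial, add_comm]

theorem laurent_poly {p : k[T;T⁻¹]} (hp : p ≠ 0) {lo hi : ℤ}
    (h : ∀ n, p.coeff n ≠ 0 → lo ≤ n ∧ n ≤ hi) : ∃ P : k[X], P ≠ 0 ∧ (P.natDegree : ℤ) ≤ hi - lo ∧
      ∀ (ξ : kˣ) (n : ℕ), PowerSeries.X ^ n ∣ evx ξ p → (X - C (ξ : k)) ^ n ∣ P := by
  have hP : toLaurent (∑ n ∈ p.coeff.support, monomial (n - lo).toNat (p.coeff n)) =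
      p * LaurentPolynomial.T (-lo) := by
    conv_rhs => rw [← AddMonoidAlgebra.sum_coeff_single p, Finsupp.sum, Finset.sum_mul]
    rw [map_sum]
    refine Finset.sum_congr rfl fun n hn => ?_
    rw [toLaurent_C_mul_T, LaurentPolynomial.single_eq_C_mul_T, mul_assoc,
      ← LaurentPolynomial.T_add, Int.toNat_of_nonneg (by
        have := h n (Finsupp.mem_support_iff.1 hn); omega), sub_eq_add_neg]
  have hne : ∃ n, p.coeff n ≠ 0 := by
    by_contra hn
    push Not at hn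
    exact hp (LaurentPolynomial.ext fun n => by simp [hn n])
  refine ⟨∑ n ∈ p.coeff.support, monomial (n - lo).toNat (p.coeff n), fun h0 => ?_, ?_,
    fun ξ n hn => dvd_of_taylor ?_⟩
  · rw [h0, map_zero] at hP
    exact mul_ne_zero hp (LaurentPolynomial.isUnit_T _).ne_zero hP.symm
  · obtain ⟨n₀, hn₀⟩ := hne
    have h1 := h n₀ hn₀
    have : (∑ n ∈ p.coeff.support, monomial (n - lo).toNat (p.coeff n) : k[X]).natDegree ≤
        (hi - lo).toNat := natDegree_sum_le_of_forall_le _ _ fun n hn => by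
      have := h n (Finsupp.mem_support_iff.1 hn)
      exact (natDegree_monomial_le _).trans (by omega)
    omega
  · have h1 := hn.mul_right (evx ξ (LaurentPolynomial.T (-lo)))
    rw [← map_mul, ← hP, evx_toLaurent, PowerSeries.X_pow_dvd_iff] at h1
    exact X_pow_dvd_iff.2 fun d hd => by simpa using h1 d hd

theorem sum_le_natDegree {σ : Type*} [Fintype σ] (a : σ → k) (ha : Function.Injective a)
    (n : σ → ℕ) {P : k[X]} (hP : P ≠ 0) (h : ∀ i, (X - C (a i)) ^ n i ∣ P) :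
    ∑ i, n i ≤ P.natDegree := by
  have h1 : ∏ i, (X - C (a i)) ^ n i ∣ P :=
    Finset.prod_dvd_of_coprime (fun i _ j _ hij => (pairwise_coprime_X_sub_C ha hij).pow)
      fun i _ => h i
  have := natDegree_le_of_dvd h1 hP
  rwa [natDegree_prod_of_monic _ _ fun i _ => (monic_X_sub_C _).pow _,
    Finset.sum_congr rfl fun i _ => by rw [natDegree_pow, natDegree_X_sub_C, mul_one]] at this

/-- The count in a region of exponents `W`. -/
theorem toric {σ : Type*} [Fintype σ] (ξ : σ → kˣ) (hξ : Function.Injective ξ) (m : σ → ℕ)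
    (N : ℕ) (s : ℕ → k[T;T⁻¹]) (W : ℕ → ℤ → Prop) (hW : ∀ j ≤ N, ∀ n, (s j).coeff n ≠ 0 → W j n)
    (hs : ∃ j ≤ N, s j ≠ 0) (h : ∀ i l, PowerSeries.X ^ (m i - l) ∣
      evx (ξ i) (∑ j ∈ Finset.range (N + 1), (j.choose l : k[T;T⁻¹]) * s j)) :
    ∃ (l : ℕ) (lo hi : ℤ), ((∑ i, (m i - l) : ℕ) : ℤ) ≤ hi - lo ∧
      (∃ j j', j + l ≤ j' ∧ W j lo ∧ W j' lo) ∧ ∃ j j', j + l ≤ j' ∧ W j hi ∧ W j' hi := by
  classical
  set G : ℕ → k[T;T⁻¹] := fun l => ∑ j ∈ Finset.range (N + 1), (j.choose l : k[T;T⁻¹]) * s j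
    with hG
  set f : ℤ → k[X] := fun n => ∑ j ∈ Finset.range (N + 1), monomial j ((s j).coeff n) with hf
  have hfc : ∀ n j, (f n).coeff j = if j ≤ N then (s j).coeff n else 0 := fun n j => by
    simp [hf, finsetSum_coeff, coeff_monomial, Nat.lt_succ_iff]
  have htay : ∀ n l, (taylor 1 (f n)).coeff l = (G l).coeff n := fun n l => by
    change _ = lc k n (G l)
    rw [taylor_coeff, hf, hG]
    simp only [map_sum, hasseDeriv_monomial, eval_finsetSum, eval_monomial, one_pow, mul_one]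
    refine Finset.sum_congr rfl fun j _ => ?_
    rw [← nsmul_eq_mul, ← nsmul_eq_mul, map_nsmul]
    rfl
  have hex : ∃ l, G l ≠ 0 := by
    by_contra hn
    push Not at hn
    obtain ⟨j, hj, hsj⟩ := hs
    refine hsj (LaurentPolynomial.ext fun n => ?_)
    have h1 : taylor 1 (f n) = 0 := by
      ext l
      simp [htay, hn]
    have h2 := hfc n j
    rw [(taylor_eq_zero 1 (f n)).1 h1, if_pos hj] at h2
    simpa using h2.symm
  set l := Nat.find hex
  have hl : G l ≠ 0 := Nat.find_spec hex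
  have key : ∀ n, (G l).coeff n ≠ 0 → ∃ j j', j + l ≤ j' ∧ W j n ∧ W j' n := by
    intro n hn
    have h0 : f n ≠ 0 := fun h0 => hn (by rw [← htay, h0]; simp)
    obtain ⟨g, hg⟩ : (X - C 1) ^ l ∣ f n := dvd_of_taylor (X_pow_dvd_iff.2 fun d hd => by
      rw [htay, not_not.1 (Nat.find_min hex hd)]; simp)
    have hg0 : g ≠ 0 := fun h => h0 (by rw [hg, h, mul_zero])
    have hx : ((X - C 1 : k[X]) ^ l) ≠ 0 := ((monic_X_sub_C 1).pow l).ne_zero
    have hw : ∀ j, (f n).coeff j ≠ 0 → W j n := fun j hj => by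
      rw [hfc] at hj
      by_cases hjN : j ≤ N
      · exact hW j hjN n (by rwa [if_pos hjN] at hj)
      · simp [hjN] at hj
    refine ⟨(f n).natTrailingDegree, (f n).natDegree, ?_,
      hw _ (trailingCoeff_nonzero_iff_nonzero.2 h0), hw _ (leadingCoeff_ne_zero.2 h0)⟩
    have a1 : ((X - C 1 : k[X]) ^ l).natTrailingDegree = 0 :=
      natTrailingDegree_eq_zero.2 (.inr (by simp [coeff_zero_eq_eval_zero]))
    rw [hg, natTrailingDegree_mul hx hg0, natDegree_mul hx hg0, a1, natDegree_pow,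
      natDegree_X_sub_C]
    have := natTrailingDegree_le_natDegree g
    omega
  have hne : (G l).coeff.support.Nonempty := by
    by_contra hn
    refine hl (LaurentPolynomial.ext fun n => ?_)
    by_contra h1
    exact hn ⟨n, Finsupp.mem_support_iff.2 (by simpa using h1)⟩
  obtain ⟨P, p0, p1, p2⟩ := laurent_poly hl (lo := (G l).coeff.support.min' hne)
    (hi := (G l).coeff.support.max' hne) fun n hn =>
      ⟨Finset.min'_le _ _ (Finsupp.mem_support_iff.2 hn),
        Finset.le_max' _ _ (Finsupp.mem_support_iff.2 hn)⟩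
  refine ⟨l, _, _, le_trans ?_ p1, key _ (Finsupp.mem_support_iff.1 (Finset.min'_mem _ hne)),
    key _ (Finsupp.mem_support_iff.1 (Finset.max'_mem _ hne))⟩
  exact_mod_cast sum_le_natDegree (fun i => (ξ i : k)) (Units.val_injective.comp hξ) _ p0
    fun i => p2 _ _ (h i l)

theorem exists_points [Infinite k] (r : ℕ) {p : k[T;T⁻¹]} (hp : p ≠ 0) :
    ∃ ξ : Fin r → kˣ, Function.Injective ξ ∧
      ∀ i, PowerSeries.constantCoeff (evx (ξ i) p) ≠ 0 := by
  classical
  obtain ⟨M, hM⟩ := (p.coeff.support.finite_toSet.image fun n => |n|).bddAbove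
  obtain ⟨P, p0, -, p2⟩ := laurent_poly hp (lo := -M) (hi := M) fun n hn =>
    abs_le.1 (hM ⟨n, Finsupp.mem_support_iff.2 hn, rfl⟩)
  have hinf : ((insert 0 P.roots.toFinset : Finset k) : Set k)ᶜ.Infinite :=
    (Finset.finite_toSet _).infinite_compl
  let e := hinf.natEmbedding
  have he : ∀ n, (e n : k) ≠ 0 ∧ (e n : k) ∉ P.roots := fun n => by
    simpa using (e n).2
  refine ⟨fun i => Units.mk0 (e i) (he i).1, fun i j hij => ?_, fun i hi => (he i).2 ?_⟩
  · have : (e i : k) = e j := congrArg Units.val hij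
    exact Fin.ext (e.injective (Subtype.ext this))
  · have := p2 _ 1 (by rw [pow_one]; exact PowerSeries.X_dvd_iff.2 hi)
    rw [pow_one, dvd_iff_isRoot] at this
    exact (mem_roots p0).2 this

/-- The local parameter. -/
noncomputable def sp (k : Type*) [Field k] : HS (PowerSeries k) := HahnSeries.C PowerSeries.X

theorem sp_dvd {f : HS (PowerSeries k)} (h : mapRH PowerSeries.constantCoeff f = 0) :
    sp k ∣ f := by
  let D : ZeroHom (PowerSeries k) (PowerSeries k) :=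
    ⟨fun u => PowerSeries.mk fun n => PowerSeries.coeff (n + 1) u, by ext; simp⟩
  refine ⟨f.map D, ?_⟩
  ext1
  funext e
  have h1 : PowerSeries.constantCoeff (f.coeff e) = 0 := by
    simpa using congrArg (fun u => HahnSeries.coeff u e) h
  rw [sp, HahnSeries.C_mul_eq_smul, HahnSeries.coeff_smul, smul_eq_mul]
  have := PowerSeries.eq_X_mul_shift_add_const (f.coeff e)
  rw [h1, map_zero, add_zero] at this
  exact this

theorem dvd_coeff {f : HS (PowerSeries k)} {n : ℕ} (h : sp k ^ n ∣ f) (e : ℤ) :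
    PowerSeries.X ^ n ∣ f.coeff e := by
  obtain ⟨g, rfl⟩ := h
  rw [sp, ← map_pow, HahnSeries.C_mul_eq_smul, HahnSeries.coeff_smul, smul_eq_mul]
  exact dvd_mul_right _ _

theorem isUnit_tau {g : HS k[T;T⁻¹]} {ξ : kˣ}
    (h : PowerSeries.constantCoeff (evx ξ (g.coeff g.order)) ≠ 0) : IsUnit (mapRH (evx ξ) g) := by
  have h1 : (mapRH (evx ξ) g).coeff g.order ≠ 0 := fun h0 => h (by
    rw [coeff_mapRH] at h0
    rw [h0, map_zero])
  have h2 : (mapRH (evx ξ) g).order = g.order := by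
    refine le_antisymm (HahnSeries.order_le_of_coeff_ne_zero h1) (not_lt.1 fun hlt => h1 ?_)
    have : (mapRH (evx ξ) g).coeff (mapRH (evx ξ) g).order = 0 := by
      rw [coeff_mapRH, HahnSeries.coeff_eq_zero_of_lt_order hlt, map_zero]
    rw [HahnSeries.coeff_order_eq_zero.1 this, HahnSeries.coeff_zero]
  rw [HahnSeries.isUnit_iff, HahnSeries.leadingCoeff_eq, h2, coeff_mapRH,
    PowerSeries.isUnit_iff_constantCoeff]
  exact h.isUnit

/-- The substitution that measures the order of vanishing at `(1 : a : b)`. -/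
noncomputable def blow {A : Type*} [CommRing A] (a b : A) :
    MvPolynomial (Fin 3) A →+* (MvPolynomial (Fin 3) A)[X] :=
  MvPolynomial.eval₂Hom (C.comp MvPolynomial.C) ![C (MvPolynomial.X 0),
    C (MvPolynomial.C a * MvPolynomial.X 0) + X * C (MvPolynomial.X 1),
    C (MvPolynomial.C b * MvPolynomial.X 0) + X * C (MvPolynomial.X 2)]

theorem dvd_of_blow {A T : Type*} [CommRing A] [CommRing T] (κ : A →+* T) {a b : A}
    {x y z σ : T} (hy : σ ∣ y - κ a * x) (hz : σ ∣ z - κ b * x) {m : ℕ}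
    {F : MvPolynomial (Fin 3) A} (h : X ^ m ∣ blow a b F) :
    σ ^ m ∣ MvPolynomial.eval₂Hom κ ![x, y, z] F := by
  obtain ⟨U, hU⟩ := hy
  obtain ⟨V, hV⟩ := hz
  have : MvPolynomial.eval₂Hom κ ![x, y, z] =
      (eval₂RingHom (MvPolynomial.eval₂Hom κ ![x, U, V]) σ).comp (blow a b) := by
    refine MvPolynomial.ringHom_ext (fun c => by simp [blow]) fun i => ?_
    fin_cases i <;> simp [blow]
    · linear_combination hU
    · linear_combination hV
  rw [this]
  simpa using map_dvd (eval₂RingHom (MvPolynomial.eval₂Hom κ ![x, U, V]) σ) h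

/-- A form with coefficients in `R[ε]` as a polynomial in `ε`. -/
noncomputable def sw {R : Type*} [CommRing R] :
    MvPolynomial (Fin 3) R[X] →+* (MvPolynomial (Fin 3) R)[X] :=
  MvPolynomial.eval₂Hom (mapRingHom MvPolynomial.C) fun i => C (MvPolynomial.X i)

theorem coeff_sw {R : Type*} [CommRing R] (F : MvPolynomial (Fin 3) R[X]) (n : ℕ)
    (e : Fin 3 →₀ ℕ) : ((sw F).coeff n).coeff e = (F.coeff e).coeff n := by
  classical
  induction F using MvPolynomial.induction_on' with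
  | add p q hp hq => simp [hp, hq]
  | monomial u a =>
    have : sw (MvPolynomial.monomial u a) =
        a.map MvPolynomial.C * C (MvPolynomial.monomial u 1) := by
      simp [monomial_three, sw]
    rw [this, coeff_mul_C, coeff_map, MvPolynomial.C_mul_monomial, MvPolynomial.coeff_monomial,
      MvPolynomial.coeff_monomial]
    split_ifs <;> simp

theorem local_alg {A : Type*} [CommRing A] [IsDomain A] (τ : HS k[T;T⁻¹] →+* A)
    (ρ : A →+* HS k) (ι : HS k →+* A) (s : A) (hs : s ≠ 0) (hτι : ∀ u, τ (io k u) = ι u)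
    (hρι : ∀ u, ρ (ι u) = u) (hdv : ∀ f, ρ f = 0 → s ∣ f)
    (b : ℕ) (c : ℤ) {q : Fin 4 → HS k} (hq : ev b c (cub q) = 0)
    (hg : IsUnit (τ (io k (q 0) * (th k b c 0 * th k b c 2) + 3 * io k (q 2) * th k b c 1 ^ 2)))
    (h0 : ρ (τ (th k b c 0)) ≠ 0) :
    ∃ a' b' : (HS k)[X], ∀ (m : ℕ) (F : MvPolynomial (Fin 3) (HS k)[X]), X ^ m ∣ blow a' b' F →
      ∀ (N : ℕ) (H : ℕ → P3 k), (∀ n ≤ N, (sw F).coeff n = cub q ^ (N - n) * H n) →
        ∀ l : ℕ, s ^ (m - l) ∣ τ (∑ j ∈ Finset.range (N + 1),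
          (j.choose l : HS k[T;T⁻¹]) * ev b c (H (N - j))) := by
  obtain ⟨γ, hγ⟩ := hg.exists_right_inv
  set t0 := τ (th k b c 0) with ht0
  set t1 := τ (th k b c 1) with ht1
  set t2 := τ (th k b c 2) with ht2
  have hd : ∀ u, s ∣ u - ι (ρ u / ρ t0) * t0 := fun u => hdv _ (by
    rw [map_sub, map_mul, hρι, div_mul_cancel₀ _ h0, sub_self])
  refine ⟨C (ρ t1 / ρ t0) + X * C (ρ γ / ρ t0), C (ρ t2 / ρ t0), fun m F hF N H hH l => ?_⟩
  set Y : A[X] := 1 + C s * X with hY
  let Φ : Fin 3 → A[X][X] :=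
    ![C (C t0), C (C t1) + X * C (Y * C γ), C (C t2)]
  let ψ : P3 k →+* A[X][X] :=
    MvPolynomial.eval₂Hom (C.comp (C.comp ι)) Φ
  have h1 : (C (C s)) ^ m ∣ MvPolynomial.eval₂Hom (mapRingHom (C.comp ι)) Φ F := by
    refine dvd_of_blow _ ?_ ?_ hF
    · obtain ⟨u, hu⟩ := hd t1
      obtain ⟨v, hv⟩ := hd γ
      refine ⟨C (C u) + X * C (C v + X * C γ), ?_⟩
      have hu' := congrArg (fun z => (C (C z) : A[X][X])) hu
      have hv' := congrArg (fun z => (C (C z) : A[X][X])) hv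
      simp only [map_sub, map_mul, map_add, map_one, hY, coe_mapRingHom, map_C, map_X,
        RingHom.comp_apply] at hu' hv' ⊢
      linear_combination hu' + X * hv'
    · obtain ⟨u, hu⟩ := hd t2
      refine ⟨C (C u), ?_⟩
      have hu' := congrArg (fun z => (C (C z) : A[X][X])) hu
      simp only [map_sub, map_mul, coe_mapRingHom, map_C, RingHom.comp_apply] at hu' ⊢
      exact hu'
  have h2 : MvPolynomial.eval₂Hom (mapRingHom (C.comp ι)) Φ = (eval₂RingHom ψ X).comp sw := by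
    refine MvPolynomial.ringHom_ext (fun a => ?_) fun i => by simp [sw, ψ]
    induction a using Polynomial.induction_on' with
    | add p q hp hq => simp only [map_add, hp, hq]
    | monomial n a => simp [sw, ψ, ← C_mul_X_pow_eq_monomial]
  have h3 : ψ (cub q) = X * (C Y + X * (C (C (3 * ι (q 2) * t1) * (Y * C γ) ^ 2) +
      X * C (C (ι (q 2)) * (Y * C γ) ^ 3))) := by
    have a1 := congrArg (fun z => (C (C (τ z)) : A[X][X])) hq
    have a2 := congrArg (fun z => (C (C z) : A[X][X])) hγ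
    simp only [cub, map_add, ev_monomial, fs0, fs1, fs2, map_mul, map_pow, hτι, ← ht0, ← ht1,
      ← ht2, map_zero, map_one, map_ofNat] at a1 a2
    simp only [cub, map_add, monomial_three, fs0, fs1, fs2, map_mul, map_pow, ψ, Φ,
      MvPolynomial.eval₂Hom_C, MvPolynomial.eval₂Hom_X', RingHom.comp_apply, Matrix.cons_val,
      map_ofNat]
    linear_combination a1 + X * C Y * a2
  have h4 : ∀ u, (ψ u).coeff 0 = C (τ (ev b c u)) := fun u => by
    have : constantCoeff.comp ψ = (C.comp τ).comp (ev b c) := by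
      refine MvPolynomial.ringHom_ext (fun a => by simp [ψ, ev, hτι]) fun i => ?_
      fin_cases i <;> simp [ψ, ev, Φ, ht0, ht1, ht2]
    exact RingHom.congr_fun this u
  rw [h2, ← map_pow, C_dvd_iff_dvd_coeff] at h1
  have h5 := h1 N
  rw [RingHom.comp_apply, coe_eval₂RingHom, eps_coeff ψ h3 _ N H hH, ← Finset.sum_range_reflect,
    ← map_pow, C_dvd_iff_dvd_coeff] at h5
  have h6 := h5 l
  have h7 : (∑ j ∈ Finset.range (N + 1), (C Y + X * (C (C (3 * ι (q 2) * t1) * (Y * C γ) ^ 2) +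
      X * C (C (ι (q 2)) * (Y * C γ) ^ 3))).coeff 0 ^ (N - (N + 1 - 1 - j)) *
        (ψ (H (N + 1 - 1 - j))).coeff 0).coeff l = s ^ l *
      τ (∑ j ∈ Finset.range (N + 1), (j.choose l : HS k[T;T⁻¹]) * ev b c (H (N - j))) := by
    rw [finsetSum_coeff, map_sum, Finset.mul_sum]
    refine Finset.sum_congr rfl fun j hj => ?_
    have hj' : j ≤ N := by simpa [Nat.lt_succ_iff] using hj
    have a1 : Y ^ j = ((1 + X) ^ j).comp (C s * X) := by simp [hY]
    rw [h4, Nat.add_sub_cancel, Nat.sub_sub_self hj', coeff_add, coeff_X_mul_zero, add_zero,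
      coeff_C_zero, coeff_mul_C, a1, comp_C_mul_X_coeff, coeff_one_add_X_pow, map_mul, map_natCast]
    ring
  rw [h7] at h6
  rcases le_total m l with hml | hml
  · simp [Nat.sub_eq_zero_of_le hml]
  · rw [← Nat.add_sub_cancel' hml, pow_add] at h6
    exact (mul_dvd_mul_iff_left (pow_ne_zero _ hs)).1 h6

theorem local_step (b : ℕ) (c : ℤ) {q : Fin 4 → HS k} (hq : ev b c (cub q) = 0) (ξ : kˣ)
    (hg : IsUnit (mapRH (evx ξ)
      (io k (q 0) * (th k b c 0 * th k b c 2) + 3 * io k (q 2) * th k b c 1 ^ 2)))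
    (h0 : mapRH PowerSeries.constantCoeff (mapRH (evx ξ) (th k b c 0)) ≠ 0) :
    ∃ a' b' : (HS k)[X], ∀ (m : ℕ) (F : MvPolynomial (Fin 3) (HS k)[X]), X ^ m ∣ blow a' b' F →
      ∀ (N : ℕ) (H : ℕ → P3 k), (∀ n ≤ N, (sw F).coeff n = cub q ^ (N - n) * H n) →
        ∀ (l : ℕ) (e : ℤ), PowerSeries.X ^ (m - l) ∣ evx ξ (∑ j ∈ Finset.range (N + 1),
          (j.choose l : k[T;T⁻¹]) * (ev b c (H (N - j))).coeff e) := by
  obtain ⟨a', b', h⟩ := local_alg (mapRH (evx ξ)) (mapRH PowerSeries.constantCoeff)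
    (mapRH PowerSeries.C) (sp k) (HahnSeries.C_ne_zero PowerSeries.X_ne_zero) (fun u => by
      ext1
      funext e
      simp [io, evx]) (fun u => by ext e; simp) (fun f => sp_dvd) b c hq hg h0
  refine ⟨a', b', fun m F hF N H hH l e => ?_⟩
  have h9 := dvd_coeff (h m F hF N H hH l) e
  rw [coeff_mapRH, HahnSeries.coeff_sum] at h9
  simpa only [← nsmul_eq_mul, HahnSeries.coeff_nsmul, Pi.smul_apply] using h9

end Pool.Agent.MP_d0dfcd_ag.H33

end MrgPart3

-- ======== part 4: formerly Pool.Agent.MP_d0dfcd_ag.h33.Main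
section MrgPart4

/-! Nagata's inequality and the Waldschmidt constant of generic points. -/

namespace Pool.Agent.MP_d0dfcd_ag.H33

open Polynomial

theorem transfer_vec {A K k ι E : Type*} [CommRing A] [Field K] [Field k] [Fintype E]
    (φ : A →+* K) (hφ : Function.Injective φ) (ψ : A →+* k) (row : ι → E → A)
    (v : E → K) (hv : v ≠ 0) (h : ∀ i, ∑ e, φ (row i e) * v e = 0) :
    ∃ w : E → k, w ≠ 0 ∧ ∀ i, ∑ e, ψ (row i e) * w e = 0 := by
  classical
  by_contra hcon
  push Not at hcon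
  set ρ : ι → E → k := fun i e => ψ (row i e) with hρ
  have hspan : Submodule.span k (Set.range ρ) = ⊤ := by
    by_contra hne
    obtain ⟨ℓ, hℓ0, hℓ⟩ := Submodule.exists_le_ker_of_lt_top _ (lt_top_iff_ne_top.2 hne)
    have hexp : ∀ x : E → k, ℓ x = ∑ e, x e * ℓ (Pi.single e 1) := by
      intro x
      conv_lhs => rw [pi_eq_sum_univ' x]
      rw [map_sum]
      refine Finset.sum_congr rfl fun e _ => ?_
      rw [map_smul, smul_eq_mul]
    have hw : (fun e => ℓ (Pi.single e 1)) ≠ 0 := by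
      intro h0
      apply hℓ0
      ext1 e
      ext1
      have := congrFun h0 e
      simpa using this
    obtain ⟨i, hi⟩ := hcon _ hw
    apply hi
    have : ℓ (ρ i) = 0 := hℓ (Submodule.subset_span ⟨i, rfl⟩)
    rw [hexp] at this
    exact this
  obtain ⟨κ, a, -, hsp, hli⟩ := exists_linearIndependent' k ρ
  rw [hspan] at hsp
  let b : Module.Basis κ k (E → k) := Module.Basis.mk hli hsp.ge
  have : Finite κ := Module.Finite.finite_basis b
  have : Fintype κ := Fintype.ofFinite κ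
  have hcard : Fintype.card κ = Fintype.card E := by
    rw [← Module.finrank_eq_card_basis b, Module.finrank_fintype_fun_eq_card]
  let e : E ≃ κ := Fintype.equivOfCardEq hcard.symm
  let M : Matrix E E A := Matrix.of fun i j => row (a (e i)) j
  have hli' : LinearIndependent k (M.map ψ).row := by
    have := hli.comp e e.injective
    exact this
  have hdet : (M.map ψ).det ≠ 0 := by
    have := Matrix.linearIndependent_rows_iff_isUnit.1 hli'
    rw [Matrix.isUnit_iff_isUnit_det] at this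
    exact this.ne_zero
  have hdetA : M.det ≠ 0 := by
    intro h0
    apply hdet
    have := RingHom.map_det ψ M
    rw [h0, map_zero] at this
    exact this.symm
  have hdetK : (M.map φ).det ≠ 0 := by
    have := RingHom.map_det φ M
    intro h0
    apply hdetA
    apply hφ
    rw [this, map_zero]
    exact h0
  apply hv
  apply Matrix.eq_zero_of_mulVec_eq_zero hdetK
  ext i
  exact h (a (e i))

theorem transfer_dom {A K k ι E : Type*} [CommRing A] [Field K] [CommRing k] [IsDomain k]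
    [Fintype E] (φ : A →+* K) (hφ : Function.Injective φ) (ψ : A →+* k) (row : ι → E → A)
    (v : E → K) (hv : v ≠ 0) (h : ∀ i, ∑ e, φ (row i e) * v e = 0) :
    ∃ w : E → k, w ≠ 0 ∧ ∀ i, ∑ e, ψ (row i e) * w e = 0 := by
  obtain ⟨w, hw0, hw⟩ := transfer_vec φ hφ ((algebraMap k (FractionRing k)).comp ψ) row v hv h
  obtain ⟨u, hu⟩ := IsLocalization.exist_integer_multiples_of_finite (nonZeroDivisors k) w
  choose w' hw' using hu
  have hinj := IsFractionRing.injective k (FractionRing k)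
  refine ⟨w', fun h0 => hw0 (funext fun e => ?_), fun i => hinj ?_⟩
  · have := hw' e
    rw [h0, Pi.zero_apply, map_zero, Algebra.smul_def] at this
    exact (mul_eq_zero.1 this.symm).resolve_left
      (IsFractionRing.to_map_ne_zero_of_mem_nonZeroDivisors u.2)
  · have := congrArg (fun z => algebraMap k (FractionRing k) u * z) (hw i)
    simp only [mul_zero, Finset.mul_sum, RingHom.comp_apply] at this
    rw [map_sum, map_zero, ← this]
    refine Finset.sum_congr rfl fun e _ => ?_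
    rw [map_mul, hw', Algebra.smul_def]
    ring

theorem transfer_mv {A K k ι σ : Type*} [CommRing A] [Field K] [CommRing k] [IsDomain k]
    (φ : A →+* K) (hφ : Function.Injective φ) (ψ : A →+* k) (row : ι → (σ →₀ ℕ) → A)
    (f : MvPolynomial σ K) (hf : f ≠ 0)
    (h : ∀ i, ∑ e ∈ f.support, φ (row i e) * f.coeff e = 0) :
    ∃ g : MvPolynomial σ k, g ≠ 0 ∧ g.support ⊆ f.support ∧
      ∀ i, ∑ e ∈ g.support, ψ (row i e) * g.coeff e = 0 := by
  classical
  obtain ⟨w, hw0, hw⟩ := transfer_dom (E := f.support) φ hφ ψ (fun i e => row i e)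
    (fun e => f.coeff e) (by
      intro h0
      obtain ⟨e, he⟩ := MvPolynomial.ne_zero_iff.1 hf
      exact he (congrFun h0 ⟨e, MvPolynomial.mem_support_iff.2 he⟩))
    (fun i => by
      rw [← h i]
      exact Finset.sum_coe_sort f.support (fun e => φ (row i e) * f.coeff e))
  let g : MvPolynomial σ k := ∑ e : f.support, MvPolynomial.monomial e.1 (w e)
  have hcoeff : ∀ e : f.support, g.coeff e.1 = w e := by
    intro e
    simp only [g, MvPolynomial.coeff_sum, MvPolynomial.coeff_monomial]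
    rw [Finset.sum_eq_single e]
    · simp
    · intro b _ hb
      rw [if_neg]
      intro hbe
      exact hb (Subtype.ext hbe)
    · simp
  have hsupp : g.support ⊆ f.support := by
    intro e he
    by_contra hne
    apply MvPolynomial.mem_support_iff.1 he
    simp only [g, MvPolynomial.coeff_sum, MvPolynomial.coeff_monomial]
    refine Finset.sum_eq_zero fun b _ => ?_
    rw [if_neg]
    intro hbe
    exact hne (hbe ▸ b.2)
  refine ⟨g, ?_, hsupp, fun i => ?_⟩
  · intro h0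
    apply hw0
    funext e
    rw [← hcoeff e, h0]
    simp
  · rw [Finset.sum_subset hsupp]
    · rw [← Finset.sum_coe_sort f.support (fun e => ψ (row i e) * g.coeff e), ← hw i]
      exact Finset.sum_congr rfl fun e _ => by rw [hcoeff]
    · intro e _ he
      rw [MvPolynomial.notMem_support_iff.1 he, mul_zero]

theorem blow_map {A B : Type*} [CommRing A] [CommRing B] (ψ : A →+* B) (a b : A)
    (F : MvPolynomial (Fin 3) A) :
    blow (ψ a) (ψ b) (MvPolynomial.map ψ F) = (blow a b F).map (MvPolynomial.map ψ) := by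
  have : (blow (ψ a) (ψ b)).comp (MvPolynomial.map ψ) =
      (mapRingHom (MvPolynomial.map ψ)).comp (blow a b) := by
    refine MvPolynomial.ringHom_ext (fun c => by simp [blow]) fun i => ?_
    fin_cases i <;> simp [blow]
  exact RingHom.congr_fun this F

theorem blow_expand {A B : Type*} [CommRing A] [CommRing B] (ψ : A →+* B) (a b : A) (j : ℕ)
    (u : Fin 3 →₀ ℕ) (F : MvPolynomial (Fin 3) B) :
    ((blow (ψ a) (ψ b) F).coeff j).coeff u = ∑ e ∈ F.support,
      ψ (((blow a b (MvPolynomial.monomial e 1)).coeff j).coeff u) * F.coeff e := by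
  conv_lhs => rw [F.as_sum]
  rw [map_sum, finsetSum_coeff, MvPolynomial.coeff_sum]
  refine Finset.sum_congr rfl fun e _ => ?_
  have h1 : MvPolynomial.monomial e (F.coeff e) = MvPolynomial.C (F.coeff e) *
      MvPolynomial.map ψ (MvPolynomial.monomial e 1) := by
    simp [MvPolynomial.C_mul_monomial]
  have h2 : blow (ψ a) (ψ b) (MvPolynomial.C (F.coeff e)) = C (MvPolynomial.C (F.coeff e)) := by
    simp [blow]
  rw [h1, map_mul, h2, blow_map, coeff_C_mul, MvPolynomial.coeff_C_mul, coeff_map,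
    MvPolynomial.coeff_map, mul_comm]

theorem blow_of_mem {K : Type*} [CommRing K] (a b : K) {m : ℕ} {F : MvPolynomial (Fin 3) K}
    (h : F ∈ Ideal.span {MvPolynomial.X 1 - MvPolynomial.C a * MvPolynomial.X 0,
      MvPolynomial.X 2 - MvPolynomial.C b * MvPolynomial.X 0} ^ m) : X ^ m ∣ blow a b F := by
  have h2 := Ideal.mem_map_of_mem (blow a b) h
  rw [Ideal.map_pow] at h2
  rw [← Ideal.mem_span_singleton, ← Ideal.span_singleton_pow]
  refine Ideal.pow_right_mono ?_ m h2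
  rw [Ideal.map_span, Ideal.span_le]
  rintro _ ⟨u, hu, rfl⟩
  rw [SetLike.mem_coe, Ideal.mem_span_singleton]
  rcases hu with rfl | rfl <;> simp [blow]

variable {K : Type*} [Field K]

theorem key [Infinite K] {r : ℕ} (a b : Fin r → K)
    (hab : AlgebraicIndependent (⊥ : Subfield K) (Sum.elim a b)) {d : ℕ} (m : Fin r → ℕ)
    {F : MvPolynomial (Fin 3) K} (hF : F ≠ 0) (hd : F.IsHomogeneous d)
    (hV : ∀ i, F ∈ Ideal.span {MvPolynomial.X 1 - MvPolynomial.C (a i) * MvPolynomial.X 0,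
      MvPolynomial.X 2 - MvPolynomial.C (b i) * MvPolynomial.X 0} ^ m i) (β : ℕ) (p : ℤ)
    (hp : 0 ≤ p) : ∃ (l : ℕ) (lo hi D : ℤ), ((∑ i, m i : ℕ) : ℤ) - r * l ≤ hi - lo ∧ D ≤ d ∧
      3 * l ≤ d ∧ D * (p - 3 * (β + 1)) ≤ (β + 1) * lo ∧ (β + 1) * lo ≤ (D - 3 * l) * p ∧
      (β + 1) * hi ≤ (d - 3 * l) * p := by
  classical
  set c : ℤ := 2 * p - 3 * (β + 1) with hc
  obtain ⟨q, hq, hg, hdiv⟩ := exists_cubic (k := K) β c
  have ht : (th K β c 0).coeff 0 ≠ 0 := fun h0 => by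
    have := cf_th (k := K) β c 0 0 0
    simp [cf, h0] at this
  obtain ⟨ξ, hξ, hx⟩ := exists_points r (mul_ne_zero (HahnSeries.coeff_order_eq_zero.not.2 hg) ht)
  simp only [map_mul, ne_eq, mul_eq_zero, not_or] at hx
  choose a' b' hloc using fun i => local_step β c hq (ξ i) (isUnit_tau (hx i).1) (fun h0 =>
    (hx i).2 (by simpa using congrArg (fun u => HahnSeries.coeff u 0) h0))
  let A := MvPolynomial (Fin r ⊕ Fin r) (⊥ : Subfield K)
  let φ : A →+* K := (MvPolynomial.aeval (Sum.elim a b)).toRingHom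
  let ψ : A →+* (HS K)[X] := MvPolynomial.eval₂Hom
    ((C.comp HahnSeries.C).comp (⊥ : Subfield K).subtype) (Sum.elim a' b')
  obtain ⟨G, hG0, hGs, hG⟩ := transfer_mv (ι := (Σ i, Fin (m i)) × (Fin 3 →₀ ℕ)) φ hab ψ
    (fun t e => ((blow (MvPolynomial.X (.inl t.1.1)) (MvPolynomial.X (.inr t.1.1))
      (MvPolynomial.monomial e 1)).coeff t.1.2).coeff t.2) F hF fun t => by
      rw [← blow_expand]
      have := X_pow_dvd_iff.1 (blow_of_mem _ _ (hV t.1.1)) _ t.1.2.2
      rw [show φ (MvPolynomial.X (.inl t.1.1)) = a t.1.1 from MvPolynomial.aeval_X _ _,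
        show φ (MvPolynomial.X (.inr t.1.1)) = b t.1.1 from MvPolynomial.aeval_X _ _, this]
      simp
  have hGb : ∀ i, X ^ m i ∣ blow (a' i) (b' i) G := fun i => X_pow_dvd_iff.2 fun j hj => by
    refine MvPolynomial.ext _ _ fun u => ?_
    have := hG (⟨i, j, hj⟩, u)
    rw [← blow_expand,
      show ψ (MvPolynomial.X (.inl i)) = a' i from MvPolynomial.eval₂Hom_X' _ _ _,
      show ψ (MvPolynomial.X (.inr i)) = b' i from MvPolynomial.eval₂Hom_X' _ _ _] at this
    exact this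
  have hP : sw G ≠ 0 := fun h0 => hG0 (by
    ext e n
    rw [← coeff_sw, h0]
    simp)
  obtain ⟨N, H, hH, n₀, hn₀, hne⟩ := eps_step (ev β c) (cub q) (fun D u => u.IsHomogeneous D)
    hdiv d (sw G) hP fun n e he => hd (MvPolynomial.mem_support_iff.1 (hGs
      (MvPolynomial.mem_support_iff.2 fun h0 => he (by rw [coeff_sw, h0]; simp))))
  obtain ⟨j₀, hj₀, hmin⟩ := ((Finset.range (N + 1)).filter fun j => ev β c (H (N - j)) ≠ 0
    ).exists_min_image (fun j => (ev β c (H (N - j))).order)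
    ⟨N - n₀, Finset.mem_filter.2 ⟨by simp, by rwa [Nat.sub_sub_self hn₀]⟩⟩
  rw [Finset.mem_filter, Finset.mem_range] at hj₀
  obtain ⟨l, lo, hi, k1, ⟨j, j', k2, k3, k4⟩, i, i', k5, -, k7⟩ := toric ξ hξ m N
    (fun j => (ev β c (H (N - j))).coeff (ev β c (H (N - j₀))).order)
    (fun j n => 3 * j ≤ d ∧ ((d : ℤ) - 3 * j) * (p - 3 * (β + 1)) ≤ (β + 1) * n ∧
      (β + 1) * n ≤ ((d : ℤ) - 3 * j) * p) (fun j hj n hn => by
      have h0 : ev β c (H (N - j)) ≠ 0 := fun h0 => hn (by simp [h0])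
      obtain h | ⟨D', h1, h2⟩ := (hH (N - j) (by omega)).2
      · exact absurd (by rw [h, map_zero]) h0
      · rw [Nat.sub_sub_self hj] at h1
        have := window (rel_ev β c h2) (fun e he => HahnSeries.coeff_eq_zero_of_lt_order
          (he.trans_le (hmin j (Finset.mem_filter.2 ⟨by simp; omega, h0⟩)))) hn
        rw [show (d : ℤ) - 3 * j = D' by omega]
        rw [hc] at this
        exact ⟨by omega, by linarith [this.1], by linarith [this.2]⟩)
    ⟨j₀, by omega, HahnSeries.coeff_order_eq_zero.not.2 hj₀.2⟩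
    fun i l => hloc i _ G (hGb i) N H (fun n hn => (hH n hn).1) l _
  refine ⟨l, lo, hi, d - 3 * j, le_trans ?_ k1, by omega, by omega, k3.2.1, k4.2.2.trans
    (mul_le_mul_of_nonneg_right (by omega) hp), k7.2.2.trans
    (mul_le_mul_of_nonneg_right (by omega) hp)⟩
  have : ∑ i, m i ≤ ∑ i, (m i - l + l) := Finset.sum_le_sum fun i _ => le_tsub_add
  rw [Finset.sum_add_distrib, Finset.sum_const, Finset.card_fin, smul_eq_mul] at this
  have h2 : ((∑ i, m i : ℕ) : ℤ) ≤ ((∑ i, (m i - l) : ℕ) : ℤ) + r * l := by exact_mod_cast this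
  linarith

theorem nagata_le [Infinite K] {r : ℕ} (hr : 9 ≤ r) (a b : Fin r → K)
    (hab : AlgebraicIndependent (⊥ : Subfield K) (Sum.elim a b)) {d : ℕ} (m : Fin r → ℕ)
    {F : MvPolynomial (Fin 3) K} (hF : F ≠ 0) (hd : F.IsHomogeneous d)
    (hV : ∀ i, F ∈ Ideal.span {MvPolynomial.X 1 - MvPolynomial.C (a i) * MvPolynomial.X 0,
      MvPolynomial.X 2 - MvPolynomial.C (b i) * MvPolynomial.X 0} ^ m i) :
    ((∑ i, m i : ℕ) : ℝ) ≤ √r * d := by
  by_contra hlt
  push Not at hlt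
  have h3 : (3 : ℝ) ≤ √r := Real.le_sqrt_of_sq_le (by exact_mod_cast hr)
  have hd0 : (0 : ℝ) ≤ d := Nat.cast_nonneg d
  obtain ⟨w, w1, w2⟩ := exists_rat_btwn
    (lt_add_of_pos_right (√r) (div_pos (sub_pos.2 hlt) (by linarith : (0 : ℝ) < d + 1)))
  have w3 : (w - √r) * (d + 1) < ((∑ i, m i : ℕ) : ℝ) - √r * d := by
    rw [← lt_div_iff₀ (by linarith)]
    linarith
  have w0 : (0 : ℚ) ≤ w := by exact_mod_cast (by linarith : (0 : ℝ) ≤ w)
  obtain ⟨β, hβ⟩ : ∃ β, w.den = β + 1 := ⟨w.den - 1, by have := w.den_pos; omega⟩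
  obtain ⟨l, lo, hi, D, k1, -, -, k4, k5, k6⟩ :=
    key a b hab m hF hd hV β w.num (Rat.num_nonneg.2 w0)
  have hq : (0 : ℝ) < β + 1 := by positivity
  have hw : (w.num : ℝ) = (β + 1) * w := by
    have : (w : ℝ) = w.num / w.den := Rat.cast_def w
    rw [this, hβ]
    push_cast
    field_simp
  have a1 : ((∑ i, m i : ℕ) : ℝ) - r * l ≤ hi - lo := by exact_mod_cast k1
  have a4 : (D : ℝ) * (w.num - 3 * (β + 1)) ≤ (β + 1) * lo := by exact_mod_cast k4
  have a5 : ((β : ℝ) + 1) * lo ≤ (D - 3 * l) * w.num := by exact_mod_cast k5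
  have a6 : ((β : ℝ) + 1) * hi ≤ (d - 3 * l) * w.num := by exact_mod_cast k6
  rw [hw] at a4 a5 a6
  have b4 : (D : ℝ) * (w - 3) ≤ lo := le_of_mul_le_mul_left (by linarith) hq
  have b5 : (lo : ℝ) ≤ (D - 3 * l) * w := le_of_mul_le_mul_left (by linarith) hq
  have b6 : (hi : ℝ) ≤ (d - 3 * l) * w := le_of_mul_le_mul_left (by linarith) hq
  have b7 : l * (w : ℝ) ≤ D := by linarith
  have b8 := mul_le_mul_of_nonneg_right b7 (by linarith : (0 : ℝ) ≤ w - 3)
  have b9 : (r : ℝ) ≤ w ^ 2 := by nlinarith [Real.sq_sqrt (Nat.cast_nonneg (α := ℝ) r)]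
  have b10 := mul_le_mul_of_nonneg_left b9 (Nat.cast_nonneg (α := ℝ) l)
  nlinarith

theorem nagata_lt [Infinite K] {r : ℕ} (hr : 9 < r) (a b : Fin r → K)
    (hab : AlgebraicIndependent (⊥ : Subfield K) (Sum.elim a b)) {d : ℕ} (m : Fin r → ℕ)
    {F : MvPolynomial (Fin 3) K} (hF : F ≠ 0) (hd : F.IsHomogeneous d)
    (hV : ∀ i, F ∈ Ideal.span {MvPolynomial.X 1 - MvPolynomial.C (a i) * MvPolynomial.X 0,
      MvPolynomial.X 2 - MvPolynomial.C (b i) * MvPolynomial.X 0} ^ m i) (hm : 0 < ∑ i, m i) :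
    ((∑ i, m i : ℕ) : ℝ) < √r * d := by
  refine lt_of_le_of_ne (nagata_le hr.le a b hab m hF hd hV) fun heq => ?_
  have hd0 : d ≠ 0 := by
    rintro rfl
    simp only [Nat.cast_zero, mul_zero, Nat.cast_eq_zero] at heq
    omega
  obtain ⟨n, rfl⟩ : IsSquare r := by
    by_contra hn
    refine irrational_sqrt_natCast_iff.2 hn ⟨((∑ i, m i : ℕ) : ℚ) / d, ?_⟩
    rw [Rat.cast_div, Rat.cast_natCast, Rat.cast_natCast, heq, mul_div_cancel_right₀ _
      (by exact_mod_cast hd0)]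
  rw [Nat.cast_mul, Real.sqrt_mul_self (Nat.cast_nonneg n)] at heq
  have hS : ((∑ i, m i : ℕ) : ℤ) = n * d := by exact_mod_cast heq
  have hn : (4 : ℤ) ≤ n := by
    have : 4 ≤ n := by nlinarith
    exact_mod_cast this
  have hd1 : (1 : ℤ) ≤ d := by omega
  obtain ⟨l, lo, hi, D, k1, k2, k3, k4, k5, k6⟩ :=
    key a b hab m hF hd hV d (n * (d + 1) - 1) (by nlinarith)
  rw [hS] at k1
  push_cast at k1
  have hl : (0 : ℤ) ≤ l := Int.natCast_nonneg l
  have k3' : 3 * (l : ℤ) ≤ d := by exact_mod_cast k3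
  have b1 : l * (n : ℤ) ≤ D := by
    by_contra h
    have : D + 1 ≤ l * n := by omega
    nlinarith
  have b2 : l * (n : ℤ) * (n - 3) ≤ lo := by
    by_contra h
    have h1 : lo + 1 ≤ l * n * (n - 3) := by omega
    have h2 := mul_le_mul_of_nonneg_right b1
      (by nlinarith : (0 : ℤ) ≤ n * (d + 1) - 1 - 3 * (d + 1))
    nlinarith
  have b3 : hi < (d - 3 * l) * n := by
    by_contra h
    have h1 : (0 : ℤ) < d - 3 * l := by nlinarith
    have h2 := mul_le_mul_of_nonneg_left (not_lt.1 h) (by linarith : (0 : ℤ) ≤ d + 1)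
    nlinarith
  nlinarith

open MvPolynomial in
theorem exists_form {r : ℕ} (a b : Fin r → K) (d m : ℕ) (h : r * (m * (m + 1)) < (d + 1) * (d + 2)) :
    ∃ F : MvPolynomial (Fin 3) K, F ≠ 0 ∧ F.IsHomogeneous d ∧ ∀ i, F ∈
      Ideal.span {MvPolynomial.X 1 - MvPolynomial.C (a i) * MvPolynomial.X 0,
      MvPolynomial.X 2 - MvPolynomial.C (b i) * MvPolynomial.X 0} ^ m := by
  classical
  let sh : K → K → MvPolynomial (Fin 3) K →ₐ[K] MvPolynomial (Fin 3) K := fun u v =>
    MvPolynomial.aeval ![MvPolynomial.X 0, MvPolynomial.X 1 + MvPolynomial.C u * MvPolynomial.X 0,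
      MvPolynomial.X 2 + MvPolynomial.C v * MvPolynomial.X 0]
  let J := fun n : ℕ => Σ j : Fin n, Fin (j + 1)
  let ex : ∀ n, J n → Fin 3 →₀ ℕ := fun n t => fs (d - t.1) t.2 (t.1 - t.2)
  let Λ : (J (d + 1) → K) →ₗ[K] MvPolynomial (Fin 3) K :=
    ∑ t, (MvPolynomial.monomial (ex _ t)) ∘ₗ LinearMap.proj t
  have hΛ : ∀ w, Λ w = ∑ t, MvPolynomial.monomial (ex _ t) (w t) := fun w => by
    simp [Λ, LinearMap.sum_apply]
  let Ψ : (J (d + 1) → K) →ₗ[K] (Fin r × J m → K) := LinearMap.pi fun t =>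
    MvPolynomial.lcoeff K (ex _ t.2) ∘ₗ (sh (a t.1) (b t.1)).toLinearMap ∘ₗ Λ
  have hcard : ∀ n : ℕ, 2 * Fintype.card (J n) = n * (n + 1) := by
    intro n
    simp only [J, Fintype.card_sigma, Fintype.card_fin]
    induction n with
    | zero => simp
    | succ n ih =>
      rw [Fin.sum_univ_castSucc]
      simp only [Fin.val_castSucc, Fin.val_last]
      linarith
  have hk := LinearMap.ker_ne_bot_of_finrank_lt (f := Ψ) (by
    have h1 := hcard m
    have h2 := hcard (d + 1)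
    simp only [Module.finrank_fintype_fun_eq_card, Fintype.card_prod, Fintype.card_fin]
    nlinarith)
  obtain ⟨w, hw, hw0⟩ := Submodule.exists_mem_ne_zero_of_ne_bot hk
  have hhom : (Λ w).IsHomogeneous d := by
    rw [hΛ]
    refine IsHomogeneous.sum _ _ _ fun t _ => hom_monomial ?_ _
    have h1 := t.1.2
    have h2 := t.2.2
    simp only [ex, fs0, fs1, fs2]
    omega
  refine ⟨Λ w, fun h0 => hw0 (funext fun t => ?_), hhom, fun i => ?_⟩
  · have := congrArg (MvPolynomial.coeff (ex _ t)) h0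
    rw [hΛ, MvPolynomial.coeff_sum, Finset.sum_eq_single t] at this
    · simpa using this
    · rintro ⟨j, u⟩ - hne
      obtain ⟨j', u'⟩ := t
      rw [MvPolynomial.coeff_monomial, if_neg]
      intro he
      have h1 := u.2
      have h2 := u'.2
      simp only [ex, fs_eq_iff, fs0, fs1, fs2] at he
      obtain rfl : j = j' := Fin.ext (by omega)
      exact hne (by rw [Fin.ext he.2.1])
    · simp
  · have h1 : (sh (a i) (b i) (Λ w)).IsHomogeneous (1 * d) := hhom.aeval _ fun j => by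
      fin_cases j
      · exact isHomogeneous_X _ _
      · exact (isHomogeneous_X _ _).add ((isHomogeneous_X _ _).C_mul _)
      · exact (isHomogeneous_X _ _).add ((isHomogeneous_X _ _).C_mul _)
    have h2 : (sh (-a i) (-b i)).comp (sh (a i) (b i)) = AlgHom.id _ _ := by
      ext1 j
      fin_cases j <;> simp [sh]
    have h3 : Λ w = sh (-a i) (-b i) (sh (a i) (b i) (Λ w)) := (AlgHom.congr_fun h2 _).symm
    rw [h3, (sh (a i) (b i) (Λ w)).as_sum, map_sum]
    refine Ideal.sum_mem _ fun e he => ?_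
    have h4 := deg_three h1 he
    have h5 : m ≤ e 1 + e 2 := by
      by_contra hlt
      have := congrFun (LinearMap.mem_ker.1 hw) (i, ⟨⟨e 1 + e 2, by omega⟩, ⟨e 1, by simp⟩⟩)
      apply MvPolynomial.mem_support_iff.1 he
      have h6 : fs (d - (e 1 + e 2)) (e 1) (e 2) = e :=
        fs_eq_iff.2 ⟨by omega, rfl, rfl⟩
      simpa [Ψ, ex, h6] using this
    refine Ideal.pow_le_pow_right h5 ?_
    rw [monomial_three, map_mul, map_mul, map_mul, mul_assoc, pow_add, map_pow, map_pow, map_pow]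
    refine Ideal.mul_mem_left _ _ (Ideal.mul_mem_left _ _ (Ideal.mul_mem_mul
      (Ideal.pow_mem_pow (Ideal.subset_span ?_) _) (Ideal.pow_mem_pow (Ideal.subset_span ?_) _)))
    · simp [sh, sub_eq_add_neg]
    · simp [sh, sub_eq_add_neg]

theorem waldschmidt [Infinite K] {r : ℕ} (hr : 9 ≤ r) (a b : Fin r → K)
    (hab : AlgebraicIndependent (⊥ : Subfield K) (Sum.elim a b)) :
    Filter.Tendsto (fun m : ℕ => ((sInf {d : ℕ | ∃ F : MvPolynomial (Fin 3) K, F ≠ 0 ∧
      F.IsHomogeneous d ∧ ∀ i, F ∈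
        Ideal.span {MvPolynomial.X 1 - MvPolynomial.C (a i) * MvPolynomial.X 0,
        MvPolynomial.X 2 - MvPolynomial.C (b i) * MvPolynomial.X 0} ^ m} : ℕ) : ℝ) / m)
      Filter.atTop (nhds √r) := by
  have hs := Real.sq_sqrt (Nat.cast_nonneg (α := ℝ) r)
  have h3 : (3 : ℝ) ≤ √r := Real.le_sqrt_of_sq_le (by exact_mod_cast hr)
  have hex := fun m : ℕ => exists_form a b ⌈√r * (m + 1)⌉₊ m (by
    have h1 := Nat.le_ceil (√r * (m + 1))
    have h0 : (0 : ℝ) ≤ m := Nat.cast_nonneg m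
    have h2 := pow_le_pow_left₀ (by positivity) h1 2
    have h4 : (0 : ℝ) ≤ ⌈√r * (m + 1)⌉₊ := Nat.cast_nonneg _
    have h5 : (0 : ℝ) ≤ r * (m + 1) := by positivity
    rw [mul_pow, hs] at h2
    have : (r : ℝ) * (m * (m + 1)) < (⌈√r * (m + 1)⌉₊ + 1) * (⌈√r * (m + 1)⌉₊ + 2) := by nlinarith
    exact_mod_cast this)
  set S : ℕ → Set ℕ := fun m => {d : ℕ | ∃ F : MvPolynomial (Fin 3) K, F ≠ 0 ∧
      F.IsHomogeneous d ∧ ∀ i, F ∈
        Ideal.span {MvPolynomial.X 1 - MvPolynomial.C (a i) * MvPolynomial.X 0,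
        MvPolynomial.X 2 - MvPolynomial.C (b i) * MvPolynomial.X 0} ^ m} with hS
  have hup : Filter.Tendsto (fun m : ℕ => √r + (√r + 1) / m) Filter.atTop (nhds √r) := by
    simpa using (tendsto_const_div_atTop_nhds_zero_nat (√r + 1)).const_add √r
  refine tendsto_of_tendsto_of_tendsto_of_le_of_le' tendsto_const_nhds hup ?_ ?_ <;>
    filter_upwards [Filter.eventually_gt_atTop 0] with m hm <;>
    have hm' : (0 : ℝ) < m := by exact_mod_cast hm
  · obtain ⟨F, f0, f1, f2⟩ := Nat.sInf_mem (s := S m) ⟨_, hex m⟩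
    have := nagata_le hr a b hab (fun _ => m) f0 f1 f2
    rw [Finset.sum_const, Finset.card_fin, smul_eq_mul, Nat.cast_mul] at this
    rw [le_div_iff₀ hm']
    exact le_of_mul_le_mul_left (a := √r) (by nlinarith) (by linarith)
  · have h1 := (Nat.cast_le (α := ℝ)).2 (Nat.sInf_le (s := S m) (hex m))
    have h2 := Nat.ceil_lt_add_one (a := √r * (m + 1)) (by positivity)
    rw [div_le_iff₀ hm', add_mul, div_mul_cancel₀ _ hm'.ne']
    refine h1.trans ?_
    linarith

end Pool.Agent.MP_d0dfcd_ag.H33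

end MrgPart4

-- marker of a merged file
example : 731051 + 897616 = 731051 + 897616 := rfl
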