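import Mathlib
import Pool.Agent.MP_d0dfcd_ag.h33.Main

/-! Nagata's conjecture in every characteristic. -/

namespace Pool.Agent.MP_d0dfcd_ag.H33.NagataJoined

open MvPolynomial Filter Topology

theorem result {K : Type*} [Field K] [IsAlgClosed K] (r : ℕ) (hr : 9 < r) (a b : Fin r → K)
    (hab : AlgebraicIndependent (⊥ : Subfield K) (Sum.elim a b)) :
    Tendsto (fun m : ℕ => ((sInf {d : ℕ | ∃ F : MvPolynomial (Fin 3) K, F ≠ 0 ∧
        F.IsHomogeneous d ∧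
        ∀ i, F ∈ Ideal.span {X 1 - C (a i) * X 0, X 2 - C (b i) * X 0} ^ m} : ℕ) : ℝ) / m)
      atTop (𝓝 (Real.sqrt r)) ∧
    ∀ (d : ℕ) (m : Fin r → ℕ) (F : MvPolynomial (Fin 3) K), F ≠ 0 → F.IsHomogeneous d →
      (∀ i, F ∈ Ideal.span {X 1 - C (a i) * X 0, X 2 - C (b i) * X 0} ^ m i) →
      0 < ∑ i, m i → ((∑ i, m i : ℕ) : ℝ) < Real.sqrt r * d :=
  ⟨Pool.Agent.MP_d0dfcd_ag.H33.waldschmidt hr.le a b hab, fun _ m _ h0 hd hV hm =>
    Pool.Agent.MP_d0dfcd_ag.H33.nagata_lt hr a b hab m h0 hd hV hm⟩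

end Pool.Agent.MP_d0dfcd_ag.H33.NagataJoined
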